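import Pool.Agent.Helper51.NQ.Tup

/-!
Elementary facts about the bad cells on the paths of the tree: their number, the number of hits,
and the number of generators below.
-/

set_option autoImplicit false

namespace Pool.Agent.Helper51.NQ

open Finset
open scoped Classical

variable [Sys]

theorem mp_lC_lt {C : Finset ℤ} (h0 : ∀ c ∈ C, Mem c) (h : (ncp C).Nonempty) :
    mp (lC C) < mp C := by
  have h1 := mp_mem h
  have hpr := ((mem_ncp h0).1 h1).1
  rcases (ncp (lC C)).eq_empty_or_nonempty with he | hne
  · have : mp (lC C) = 0 := by unfold mp; rw [he]; rfl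
    rw [this]
    exact Sys.ipos _ hpr
  · refine lt_of_le_of_ne (mp_mono (lC_subset C)) fun heq => ?_
    have h2 := (mem_ncp (fun c hc => h0 c (lC_subset C hc))).1 (mp_mem hne)
    obtain ⟨_, c, hc, c', hc', hcc⟩ := h2
    rw [heq] at hcc
    exact hcc ((mem_lC.1 hc).2.trans (mem_lC.1 hc').2.symm)

theorem mem_bl (P : Par) : ∀ C : Finset ℤ, C.Nonempty → (∀ c ∈ C, Mem c) →
    ∀ c ∈ C, ∀ B ∈ bl P C c, B ⊆ C ∧ c ∈ B ∧ Bd P B ∧ (ncp B).Nonempty := by
  apply tree_ind
  · intro C _ h0 hn c hc B hB
    rw [bl_nil P hn h0 hc] at hB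
    exact absurd hB (List.not_mem_nil)
  · intro C h0 hn ih1 ih2 c hc B hB
    have key : ∀ D : Finset ℤ, D ⊆ C → (∀ c ∈ D, ∀ B ∈ bl P D c, B ⊆ D ∧ c ∈ B ∧ Bd P B ∧
        (ncp B).Nonempty) → c ∈ D → bl P C c = (if Bd P C then [C] else []) ++ bl P D c →
        B ⊆ C ∧ c ∈ B ∧ Bd P B ∧ (ncp B).Nonempty := by
      intro D hD ih hcD he
      rw [he, List.mem_append] at hB
      rcases hB with hB | hB
      · split_ifs at hB with hb
        · rw [List.mem_singleton] at hB
          subst hB
          exact ⟨Finset.Subset.refl _, hc, hb, hn⟩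
        · exact absurd hB (List.not_mem_nil)
      · obtain ⟨h1, h2⟩ := ih c hcD B hB
        exact ⟨h1.trans hD, h2⟩
    rw [← hC_union_lC C, Finset.mem_union] at hc
    rcases hc with hc' | hc'
    · rw [← hC_union_lC C] at key
      exact key (hC C) Finset.subset_union_left ih1 hc'
        (by rw [hC_union_lC]; exact bl_hi P hn hc') |> fun h => by rwa [hC_union_lC] at h
    · rw [← hC_union_lC C] at key
      exact key (lC C) Finset.subset_union_right ih2 hc'
        (by rw [hC_union_lC]; exact bl_lo P hn hc') |> fun h => by rwa [hC_union_lC] at h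

/-- the depth bound -/
theorem len_le (P : Par) (m : ℝ) (hm0 : 0 ≤ m) (hmx : m ≤ P.x) (hmy : m ≤ P.y) :
    ∀ C : Finset ℤ, C.Nonempty → (∀ c ∈ C, Mem c) →
    ∀ c ∈ C, m * (bl P C c).length ≤ Real.log C.card := by
  apply tree_ind
  · intro C _ h0 hn c hc
    rw [bl_nil P hn h0 hc]
    simp only [List.length_nil, Nat.cast_zero, mul_zero]
    exact Real.log_natCast_nonneg _
  · intro C h0 hn ih1 ih2 c hc
    have hC' := nonempty_of_ncp hn
    have cC : (0 : ℝ) < C.card := by exact_mod_cast hC'.card_pos
    have hcard : ((hC C).card : ℝ) + (lC C).card = C.card := by exact_mod_cast card_hC_lC C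
    have key : ∀ D : Finset ℤ, D ⊆ C → D.Nonempty → (Bd P C → (D.card : ℝ) ≤ (1 - m) * C.card) →
        m * (bl P D c).length ≤ Real.log D.card →
        bl P C c = (if Bd P C then [C] else []) ++ bl P D c →
        m * (bl P C c).length ≤ Real.log C.card := by
      intro D hD hDne hDc ih he
      have cD : (0 : ℝ) < D.card := by exact_mod_cast hDne.card_pos
      have h1 : Real.log D.card ≤ Real.log C.card :=
        Real.log_le_log cD (by exact_mod_cast Finset.card_le_card hD)
      rw [he, List.length_append]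
      split_ifs with hb
      · have h2 : Real.log ((D.card : ℝ) / C.card) ≤ (D.card : ℝ) / C.card - 1 :=
          Real.log_le_sub_one_of_pos (by positivity)
        have h3 : (D.card : ℝ) / C.card ≤ 1 - m := by
          rw [div_le_iff₀ cC]; exact hDc hb
        rw [Real.log_div cD.ne' cC.ne'] at h2
        push_cast
        simp only [List.length_singleton, Nat.cast_one]
        linarith
      · simp only [List.length_nil, zero_add]
        linarith
    have hc2 : c ∈ hC C ∨ c ∈ lC C := by
      rw [← Finset.mem_union, hC_union_lC]; exact hc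
    rcases hc2 with hc' | hc'
    · refine key (hC C) (hC_subset C) (hC_nonempty hn) (fun hb => ?_) (ih1 c hc')
        (bl_hi P hn hc')
      refine hb.2.1.trans (mul_le_mul_of_nonneg_right (by linarith) cC.le)
    · refine key (lC C) (lC_subset C) (lC_nonempty hC') (fun hb => ?_) (ih2 c hc')
        (bl_lo P hn hc')
      have h1 := hb.1
      have h2 : m * C.card ≤ P.x * C.card := mul_le_mul_of_nonneg_right hmx cC.le
      linarith

/-- `c` lies in a heavy class of the low part of `B` -/
def Ht (P : Par) (B : Finset ℤ) (c : ℤ) : Prop := c ∈ lC B ∧ Hv P B c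

/-- the number of hits -/
noncomputable def hits (P : Par) (l : List (Finset ℤ)) (c : ℤ) : ℕ :=
  l.countP fun B => decide (Ht P B c)

theorem hits_append (P : Par) (l l' : List (Finset ℤ)) (c : ℤ) :
    hits P (l ++ l') c = hits P l c + hits P l' c := List.countP_append

theorem hits_le (P : Par) (l : List (Finset ℤ)) (c : ℤ) : hits P l c ≤ l.length :=
  List.countP_le_length

theorem hits_ge (P : Par) (hb : 0 ≤ P.b) : ∀ C : Finset ℤ, C.Nonempty → (∀ c ∈ C, Mem c) →
    P.y * P.b * nbs P C ≤ ∑ c ∈ C, (hits P (bl P C c) c : ℝ) := by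
  apply tree_ind
  · intro C _ h0 hn
    rw [nbs_nil P hn h0, mul_zero]
    exact Finset.sum_nonneg fun c _ => by positivity
  · intro C h0 hn ih1 ih2
    have hcard : ((hC C).card : ℝ) + (lC C).card = C.card := by exact_mod_cast card_hC_lC C
    have h1 : ∀ D : Finset ℤ,
        (∀ c ∈ D, bl P C c = (if Bd P C then [C] else []) ++ bl P D c) →
        ∑ c ∈ D, (hits P (bl P C c) c : ℝ) =
          (if Bd P C then ((D.filter fun c => Ht P C c).card : ℝ) else 0) +
            ∑ c ∈ D, (hits P (bl P D c) c : ℝ) := by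
      intro D hD
      have h2 : ∀ c ∈ D, (hits P (bl P C c) c : ℝ) =
          (if Bd P C then (if Ht P C c then 1 else 0) else 0) +
          (hits P (bl P D c) c : ℝ) := by
        intro c hc
        rw [hD c hc, hits_append]
        push_cast
        congr 1
        split_ifs with hb hH
        · unfold hits; simp [hH]
        · unfold hits; simp [hH]
        · unfold hits; simp
      rw [Finset.sum_congr rfl h2, Finset.sum_add_distrib]
      congr 1
      split_ifs
      · rw [Finset.card_filter]; push_cast; rfl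
      · simp
    rw [sum_hC_lC C, h1 (hC C) fun c hc => bl_hi P hn hc, h1 (lC C) fun c hc => bl_lo P hn hc,
      nbs_eq P hn]
    split_ifs with hB
    · have h2 : (lC C).filter (fun c => Ht P C c) = (lC C).filter (fun c => Hv P C c) := by
        apply Finset.filter_congr
        intro c hc
        exact ⟨fun h => h.2, fun h => ⟨hc, h⟩⟩
      rw [h2]
      have h3 := hB.2.2
      have h4 : P.y * C.card ≤ (lC C).card := by
        have := hB.2.1
        linarith
      have h5 := mul_le_mul_of_nonneg_left h4 hb
      have h6 : (0 : ℝ) ≤ ((hC C).filter fun c => Ht P C c).card := by positivity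
      nlinarith
    · nlinarith

/-- the generators with positive exponent in `c` -/
noncomputable def sp (c : ℤ) : Finset ℕ := Gn.filter fun b => vl b c ≠ 0

/-- the number of generators below `π` with positive exponent in `c` -/
noncomputable def om (c : ℤ) (π : ℕ) : ℕ := ((sp c).filter fun q => q < π).card

theorem om_add {c : ℤ} {p π : ℕ} (hp : p ∈ sp c) (h : p < π) :
    om c p + 1 ≤ om c π := by
  unfold om
  have h1 : p ∉ (sp c).filter fun q => q < p := by
    rw [Finset.mem_filter]
    exact fun h => lt_irrefl _ h.2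
  rw [← Finset.card_insert_of_notMem h1]
  apply Finset.card_le_card
  intro q hq
  rw [Finset.mem_insert, Finset.mem_filter] at hq
  rw [Finset.mem_filter]
  rcases hq with rfl | hq
  · exact ⟨hp, h⟩
  · exact ⟨hq.1, hq.2.trans h⟩

theorem mem_pf_of_hC {C : Finset ℤ} (h0 : ∀ c ∈ C, Mem c) (h : (ncp C).Nonempty) {c : ℤ}
    (hc : c ∈ hC C) : mp C ∈ sp c := by
  have hpr := ((mem_ncp h0).1 (mp_mem h)).1
  obtain ⟨h1, h2⟩ := mem_hC.1 hc
  have h3 := mt_le h1
  exact Finset.mem_filter.2 ⟨hpr, by omega⟩

theorem exp_mu {m v : ℝ} (h : m ≤ v) (hv : 0 ≤ v) : Real.exp (m / 2) * (1 - v / 2) ≤ 1 := by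
  have h1 : 1 - v / 2 ≤ Real.exp (-(v / 2)) := by
    have := Real.add_one_le_exp (-(v / 2))
    linarith
  have h2 : Real.exp (m / 2) * Real.exp (-(v / 2)) ≤ 1 := by
    rw [← Real.exp_add]
    apply Real.exp_le_one_iff.2
    linarith
  exact (mul_le_mul_of_nonneg_left h1 (Real.exp_pos _).le).trans h2

theorem chern (P : Par) (m : ℝ) (hm0 : 0 ≤ m) (hmx : m ≤ P.x) (hmy : m ≤ P.y) :
    ∀ C : Finset ℤ, C.Nonempty → (∀ c ∈ C, Mem c) → ∀ π : ℕ, mp C ≤ π →
    ∑ c ∈ C, Real.exp (m / 2 * (bl P C c).length - Real.log 4 * om c π) ≤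
      (if mp C = π then 2 else 1) * C.card := by
  have hlog4 : 0 ≤ Real.log 4 := Real.log_nonneg (by norm_num)
  apply tree_ind
  · intro C _ h0 hn π hπ
    have h1 : ∀ c ∈ C, Real.exp (m / 2 * (bl P C c).length - Real.log 4 * om c π) ≤ 1 := by
      intro c hc
      rw [bl_nil P hn h0 hc]
      apply Real.exp_le_one_iff.2
      have : 0 ≤ Real.log 4 * om c π := by positivity
      simp only [List.length_nil, Nat.cast_zero, mul_zero]
      linarith
    have h2 : ∑ c ∈ C, Real.exp (m / 2 * (bl P C c).length - Real.log 4 * om c π) ≤ C.card := by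
      calc _ ≤ ∑ _c ∈ C, (1 : ℝ) := Finset.sum_le_sum h1
        _ = C.card := by simp
    have h3 : (0 : ℝ) ≤ C.card := by positivity
    split_ifs <;> linarith
  · intro C h0 hn ih1 ih2 π hπ
    have hcard : ((hC C).card : ℝ) + (lC C).card = C.card := by exact_mod_cast card_hC_lC C
    have ch : (0 : ℝ) ≤ (hC C).card := by positivity
    have cl : (0 : ℝ) ≤ (lC C).card := by positivity
    have hlt := mp_lC_lt h0 hn
    have hle : mp (hC C) ≤ mp C := mp_mono (hC_subset C)
    have hE : 0 < Real.exp (m / 2) := Real.exp_pos _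
    have hE1 : 1 ≤ Real.exp (m / 2) := Real.one_le_exp (by linarith)
    -- the low part
    have hlo := ih2 π (hlt.le.trans hπ)
    rw [if_neg (by omega), one_mul] at hlo
    by_cases hB : Bd P C
    · have e1 : ∀ D : Finset ℤ, ∀ c ∈ D, bl P C c = [C] ++ bl P D c →
          Real.exp (m / 2 * (bl P C c).length - Real.log 4 * om c π) =
          Real.exp (m / 2) * Real.exp (m / 2 * (bl P D c).length - Real.log 4 * om c π) := by
        intro D c _ he
        rw [he, ← Real.exp_add]
        congr 1
        simp only [List.length_append, List.length_singleton]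
        push_cast; ring
      rw [sum_hC_lC C, Finset.sum_congr rfl fun c hc => e1 (hC C) c hc (by
          rw [bl_hi P hn hc, if_pos hB]), Finset.sum_congr rfl fun c hc => e1 (lC C) c hc (by
          rw [bl_lo P hn hc, if_pos hB]), ← Finset.mul_sum, ← Finset.mul_sum]
      by_cases hpi : mp C = π
      · rw [if_pos hpi]
        have h1 := ih1 π (hle.trans hπ)
        have h2 : ∑ c ∈ hC C, Real.exp (m / 2 * (bl P (hC C) c).length - Real.log 4 * om c π) ≤
            2 * (hC C).card := by
          refine h1.trans (mul_le_mul_of_nonneg_right ?_ ch)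
          split_ifs <;> norm_num
        have h3 := mul_le_mul_of_nonneg_left h2 hE.le
        have h4 := mul_le_mul_of_nonneg_left hlo hE.le
        have h5 := exp_mu (m := m) hmy (hm0.trans hmy)
        have h6 := hB.2.1
        have h7 : Real.exp (m / 2) * (2 * (hC C).card + (lC C).card) ≤
            Real.exp (m / 2) * ((2 - P.y) * C.card) :=
          mul_le_mul_of_nonneg_left (by linarith) hE.le
        have h8 : Real.exp (m / 2) * ((2 - P.y) * C.card) =
            2 * (Real.exp (m / 2) * (1 - P.y / 2)) * C.card := by ring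
        have h9 : 2 * (Real.exp (m / 2) * (1 - P.y / 2)) * C.card ≤ 2 * 1 * (C.card : ℝ) :=
          mul_le_mul_of_nonneg_right (by linarith) (by positivity)
        linarith
      · rw [if_neg hpi, one_mul]
        have hpi' : mp C < π := lt_of_le_of_ne hπ hpi
        have h1 := ih1 (mp C) hle
        have h2 : ∑ c ∈ hC C, Real.exp (m / 2 * (bl P (hC C) c).length - Real.log 4 * om c π) ≤
            1 / 4 * (2 * (hC C).card) := by
          have h3 : ∀ c ∈ hC C,
              Real.exp (m / 2 * (bl P (hC C) c).length - Real.log 4 * om c π) ≤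
              1 / 4 * Real.exp (m / 2 * (bl P (hC C) c).length - Real.log 4 * om c (mp C)) := by
            intro c hc
            have h4 : (1 : ℝ) / 4 = Real.exp (-Real.log 4) := by
              rw [Real.exp_neg, Real.exp_log (by norm_num)]; norm_num
            rw [h4, ← Real.exp_add]
            apply Real.exp_le_exp.2
            have h5 : ((om c (mp C) : ℝ) + 1) ≤ om c π := by
              exact_mod_cast om_add (mem_pf_of_hC h0 hn hc) hpi'
            have h6 := mul_le_mul_of_nonneg_left h5 hlog4
            linarith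
          refine (Finset.sum_le_sum h3).trans ?_
          rw [← Finset.mul_sum]
          refine mul_le_mul_of_nonneg_left (h1.trans (mul_le_mul_of_nonneg_right ?_ ch))
            (by norm_num)
          split_ifs <;> norm_num
        have h3 := mul_le_mul_of_nonneg_left h2 hE.le
        have h4 := mul_le_mul_of_nonneg_left hlo hE.le
        have h5 := exp_mu (m := m) hmx (hm0.trans hmx)
        have h6 := hB.1
        have h7 : Real.exp (m / 2) * (1 / 2 * (hC C).card + (lC C).card) ≤
            Real.exp (m / 2) * ((1 - P.x / 2) * C.card) :=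
          mul_le_mul_of_nonneg_left (by linarith) hE.le
        have h8 : Real.exp (m / 2) * ((1 - P.x / 2) * C.card) =
            (Real.exp (m / 2) * (1 - P.x / 2)) * C.card := by ring
        have h9 : (Real.exp (m / 2) * (1 - P.x / 2)) * C.card ≤ 1 * (C.card : ℝ) :=
          mul_le_mul_of_nonneg_right h5 (by positivity)
        linarith
    · have e1 : ∀ D : Finset ℤ, ∀ c ∈ D, bl P C c = [] ++ bl P D c →
          Real.exp (m / 2 * (bl P C c).length - Real.log 4 * om c π) =
          Real.exp (m / 2 * (bl P D c).length - Real.log 4 * om c π) := by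
        intro D c _ he
        rw [he, List.nil_append]
      rw [sum_hC_lC C, Finset.sum_congr rfl fun c hc => e1 (hC C) c hc (by
          rw [bl_hi P hn hc, if_neg hB]), Finset.sum_congr rfl fun c hc => e1 (lC C) c hc (by
          rw [bl_lo P hn hc, if_neg hB])]
      have h1 := ih1 π (hle.trans hπ)
      by_cases hpi : mp C = π
      · rw [if_pos hpi]
        have h2 : ∑ c ∈ hC C, Real.exp (m / 2 * (bl P (hC C) c).length - Real.log 4 * om c π) ≤
            2 * (hC C).card := by
          refine h1.trans (mul_le_mul_of_nonneg_right ?_ ch)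
          split_ifs <;> norm_num
        linarith
      · rw [if_neg hpi, one_mul]
        have hpi' : mp C < π := lt_of_le_of_ne hπ hpi
        rw [if_neg (by omega), one_mul] at h1
        linarith

/-- the exponential moment after the `i`-th bad cell -/
noncomputable def Ph (m : ℝ) (i : ℕ) (c : ℤ) (l : List (Finset ℤ)) : ℝ :=
  if i < l.length then
    Real.exp (m / 2 * ((l.length : ℝ) - (i + 1)) - Real.log 4 * om c (mp (l.getD i ∅))) else 0

theorem Ph_succ (m : ℝ) (i : ℕ) (c : ℤ) (B : Finset ℤ) (l : List (Finset ℤ)) :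
    Ph m (i + 1) c (B :: l) = Ph m i c l := by
  unfold Ph
  rw [List.length_cons, List.getD_cons_succ]
  by_cases h : i < l.length
  · rw [if_pos h, if_pos (by omega)]
    congr 2
    push_cast; ring
  · rw [if_neg h, if_neg (by omega)]

theorem chern' (P : Par) (m : ℝ) (hm0 : 0 ≤ m) (hmx : m ≤ P.x) (hmy : m ≤ P.y) :
    ∀ C : Finset ℤ, C.Nonempty → (∀ c ∈ C, Mem c) → ∀ i : ℕ,
    ∑ c ∈ C, Ph m i c (bl P C c) ≤ 2 * C.card := by
  apply tree_ind
  · intro C _ h0 hn i
    rw [Finset.sum_eq_zero]
    · positivity
    · intro c hc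
      rw [bl_nil P hn h0 hc]
      unfold Ph
      simp
  · intro C h0 hn ih1 ih2 i
    have hC' := nonempty_of_ncp hn
    have hcard : ((hC C).card : ℝ) + (lC C).card = C.card := by exact_mod_cast card_hC_lC C
    rw [sum_hC_lC C]
    have key : ∀ D : Finset ℤ, D ⊆ C → D.Nonempty →
        (∀ c ∈ D, bl P C c = (if Bd P C then [C] else []) ++ bl P D c) →
        (∀ i : ℕ, ∑ c ∈ D, Ph m i c (bl P D c) ≤ 2 * D.card) →
        ∑ c ∈ D, Ph m i c (bl P C c) ≤ 2 * D.card := by
      intro D hD hDne he ih
      rw [Finset.sum_congr rfl fun c hc => by rw [he c hc]]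
      by_cases hB : Bd P C
      · simp only [if_pos hB, List.singleton_append]
        rcases i with _ | i
        · have h1 := chern P m hm0 hmx hmy D hDne (fun c hc => h0 c (hD hc)) (mp C)
            (mp_mono hD)
          refine le_trans (le_of_eq ?_) (h1.trans (mul_le_mul_of_nonneg_right ?_
            (by positivity)))
          · refine Finset.sum_congr rfl fun c _ => ?_
            unfold Ph
            rw [if_pos (by simp)]
            congr 1
            simp
          · split_ifs <;> norm_num
        · simp only [Ph_succ]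
          exact ih i
      · simp only [if_neg hB, List.nil_append]
        exact ih i
    have h1 := key (hC C) (hC_subset C) (hC_nonempty hn) (fun c hc => bl_hi P hn hc) ih1
    have h2 := key (lC C) (lC_subset C) (lC_nonempty hC') (fun c hc => bl_lo P hn hc) ih2
    linarith

theorem few_primes (P : Par) (m : ℝ) (hm0 : 0 ≤ m) (hmx : m ≤ P.x) (hmy : m ≤ P.y)
    (A : Finset ℤ) (hA : A.Nonempty) (h0 : ∀ c ∈ A, Mem c) (i n₁ N₀ : ℕ) :
    ((A.filter fun c => i + 1 + n₁ ≤ (bl P A c).length ∧
      om c (mp ((bl P A c).getD i ∅)) < N₀).card : ℝ) ≤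
      2 * A.card * Real.exp (-(m / 2 * n₁) + Real.log 4 * N₀) := by
  have h1 := chern' P m hm0 hmx hmy A hA h0 i
  set E := A.filter fun c => i + 1 + n₁ ≤ (bl P A c).length ∧
      om c (mp ((bl P A c).getD i ∅)) < N₀ with hE
  have hPh : ∀ c ∈ A, 0 ≤ Ph m i c (bl P A c) := by
    intro c _
    unfold Ph
    split_ifs
    · exact (Real.exp_pos _).le
    · exact le_rfl
  have h2 : ∑ c ∈ E, Ph m i c (bl P A c) ≤ 2 * A.card :=
    (Finset.sum_le_sum_of_subset_of_nonneg (Finset.filter_subset _ _)
      fun c hc _ => hPh c hc).trans h1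
  have h3 : ∀ c ∈ E, Real.exp (m / 2 * n₁ - Real.log 4 * N₀) ≤ Ph m i c (bl P A c) := by
    intro c hc
    obtain ⟨_, hc1, hc2⟩ := Finset.mem_filter.1 hc
    unfold Ph
    rw [if_pos (by omega)]
    apply Real.exp_le_exp.2
    have h4 : (n₁ : ℝ) ≤ ((bl P A c).length : ℝ) - (i + 1) := by
      have : ((i + 1 + n₁ : ℕ) : ℝ) ≤ ((bl P A c).length : ℝ) := by exact_mod_cast hc1
      push_cast at this
      linarith
    have h5 : (om c (mp ((bl P A c).getD i ∅)) : ℝ) ≤ N₀ := by exact_mod_cast hc2.le
    have h6 := mul_le_mul_of_nonneg_left h4 (by linarith : 0 ≤ m / 2)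
    have h7 := mul_le_mul_of_nonneg_left h5 (Real.log_nonneg (by norm_num) : 0 ≤ Real.log 4)
    linarith
  have h4 : (E.card : ℝ) * Real.exp (m / 2 * n₁ - Real.log 4 * N₀) ≤ 2 * A.card := by
    refine le_trans ?_ h2
    rw [← nsmul_eq_mul, ← Finset.sum_const]
    exact Finset.sum_le_sum h3
  have h5 : Real.exp (-(m / 2 * n₁) + Real.log 4 * N₀) =
      (Real.exp (m / 2 * n₁ - Real.log 4 * N₀))⁻¹ := by
    rw [← Real.exp_neg]
    congr 1
    ring
  rw [h5, ← div_eq_mul_inv, le_div_iff₀ (Real.exp_pos _)]
  exact h4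

end Pool.Agent.Helper51.NQ
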