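import Pool.Agent.Helper51.NQ.Frm
import Pool.Agent.Helper51.NP.Mix
import Pool.Agent.TH358.SN.FewP

/-!
The entropy form of the inequality for large subsets of convex sets.
-/

set_option autoImplicit false

namespace Pool.Agent.Helper51.NQ

open Finset
open H633R5.FS (N N_nonneg N_le N_ge sum_N_mul Lz Lz_eq g Lz_le g_nonneg g_le F PS PS_nonempty)
open NP (g_mix g_affine g_dil sum_log_N)
open scoped Pointwise

theorem ent (κ : ℕ) (ε C : ℝ) (hε : 0 < ε) (hC : 0 ≤ C) :
    ∃ η c₀ : ℝ, 0 < η ∧ 0 ≤ c₀ ∧ ∀ (r : ℕ) (u w E : Fin r → ℕ), NewPairs κ u w →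
      ∀ D : Finset (Fin r → ℕ), Down D → (∀ f ∈ D, f ≤ E) →
      ∀ A : Finset ℤ, A.Nonempty → (∀ a ∈ A, ∃ f ∈ D, a.natAbs = pw u w E f) →
      (D.card : ℝ) ≤ (A.card : ℝ) ^ (1 + η) →
      (∀ K : ℕ, 2 ≤ K → ((sums K D).card : ℝ) ≤ (K : ℝ) ^ (C * Real.log A.card)) →
      ∀ B : Finset ℤ, B.Nonempty →
        (1 - ε) * Real.log A.card - ε * Real.log B.card - c₀ ≤ g A B := by
  obtain ⟨K, hK2, hK3, _⟩ :=
    Pool.Agent.TH358.SN.exists_K C (ε / 2) hC (by positivity) 2
  have hK1 : 1 ≤ K := by omega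
  have hKr : (2 : ℝ) ≤ K := by exact_mod_cast hK2
  have hKpos : (0 : ℝ) < K := by linarith
  set δ : ℝ := min (1 / 2) (ε / 4) with hδ
  have hδ0 : 0 < δ := by positivity
  have hδ1 : δ ≤ 1 / 2 := min_le_left _ _
  have hδ2 : δ ≤ ε / 4 := min_le_right _ _
  obtain ⟨P₀, hx, hy, _, ht, hb, hmain⟩ := main' K hK1 (1 - δ) δ (by linarith) (by linarith) hδ0
  obtain ⟨η₀, C₀, hη₀, hC₀, hfew⟩ := few (2 * κ + 1) (by omega) P₀ hx hy ht hb δ hδ0
  have hlog2 : 0 < Real.log 2 := Real.log_pos (by norm_num)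
  have hlog2' : Real.log 2 ≤ 1 := by linarith [Real.log_two_lt_d9]
  refine ⟨min 1 η₀, C₀ + 2, lt_min one_pos hη₀, by positivity, ?_⟩
  intro r u w E hbI D hD hs A hA hAD hcard hr B hB
  have cA : (0 : ℝ) < A.card := by exact_mod_cast hA.card_pos
  have cA1 : (1 : ℝ) ≤ A.card := by exact_mod_cast hA.card_pos
  have cB : (0 : ℝ) < B.card := by exact_mod_cast hB.card_pos
  have hDne : D.Nonempty := by
    obtain ⟨a, ha⟩ := hA
    obtain ⟨f, hf, _⟩ := hAD a ha
    exact ⟨f, hf⟩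
  have cD : (0 : ℝ) < D.card := by exact_mod_cast hDne.card_pos
  set a := Real.log A.card with ha
  set q := Real.log B.card with hq
  set d := Real.log D.card with hd
  have ha0 : 0 ≤ a := Real.log_natCast_nonneg _
  have hq0 : 0 ≤ q := Real.log_natCast_nonneg _
  have hd0 : 0 ≤ d := Real.log_natCast_nonneg _
  have hd1 : d ≤ (1 + min 1 η₀) * a := by
    have h1 := Real.log_le_log cD hcard
    rwa [Real.log_rpow cA] at h1
  have hd2 : d ≤ 2 * a := by
    refine hd1.trans (mul_le_mul_of_nonneg_right ?_ ha0)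
    linarith [min_le_left 1 η₀]
  letI := mkSys hbI E
  have h0 : ∀ z ∈ A, Mem z := by
    intro z hz
    obtain ⟨f, hf, hzf⟩ := hAD z hz
    exact mkSys_mem hbI E (hs f hf) hzf
  have hDv : ((Dv A).card : ℝ) ≤ (A.card : ℝ) ^ (1 + η₀) := by
    have e1 : ((Dv A).card : ℝ) ≤ D.card := by
      exact_mod_cast Dv_card_le hbI E D hD hs A hAD
    refine e1.trans (hcard.trans ?_)
    exact Real.rpow_le_rpow_of_exponent_le cA1 (by linarith [min_le_right 1 η₀])
  -- the penalty
  have hU : U P₀ (1 - δ) A ≤ δ * a + C₀ := by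
    unfold U
    have h1 : nbs P₀ A / A.card ≤ δ * a + C₀ := by
      rw [div_le_iff₀ cA, mul_comm]
      exact hfew (mkSys_big hbI E) A hA h0 hDv
    have h2 : 0 ≤ nbs P₀ A / A.card := div_nonneg (nbs_nonneg _ _) cA.le
    have h3 : (1 - δ) * Real.log 2 ≤ 1 * 1 :=
      mul_le_mul (by linarith) hlog2' hlog2.le (by norm_num)
    calc (1 - δ) * Real.log 2 * (nbs P₀ A / A.card) ≤ 1 * 1 * (nbs P₀ A / A.card) :=
          mul_le_mul_of_nonneg_right h3 h2
      _ ≤ δ * a + C₀ := by linarith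
  have hPS : Real.log (PS fun _ : Fin K => A).card ≤ Real.log 2 + C * a * Real.log K := by
    have e1 := card_PS_le (K := K) u w E D hs A hAD
    have cPS : (0 : ℝ) < (PS fun _ : Fin K => A).card := by
      exact_mod_cast (PS_nonempty fun _ : Fin K => hA).card_pos
    have e2 : ((PS fun _ : Fin K => A).card : ℝ) ≤ 2 * (K : ℝ) ^ (C * a) := by
      have e3 : ((PS fun _ : Fin K => A).card : ℝ) ≤ 2 * (sums K D).card := by exact_mod_cast e1
      exact e3.trans (mul_le_mul_of_nonneg_left (hr K hK2) (by norm_num))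
    have e3 := Real.log_le_log cPS e2
    rw [Real.log_mul (by norm_num) (by positivity), Real.log_rpow hKpos] at e3
    exact e3
  have hlK : 0 ≤ Real.log K := Real.log_natCast_nonneg _
  have h1 := hmain _ (fun _ => A) (fun _ => B) rfl (fun _ => hA) (fun _ => hB) (fun _ => h0)
  rw [Finset.sum_const, Finset.card_univ, Fintype.card_fin, nsmul_eq_mul] at h1
  have cPS : (0 : ℝ) < (PS fun _ : Fin K => A).card := by
    exact_mod_cast (PS_nonempty fun _ : Fin K => hA).card_pos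
  have h2 := (Real.le_log_iff_exp_le cPS).2 h1
  unfold G F at h2
  have h3 : K * ((1 - δ) * a - g A B - δ * q - (δ * a + C₀) - Real.log 2) ≤
      Real.log 2 + 2 * a + C * a * Real.log K := by
    have h4 : K * ((1 - δ) * a - g A B - δ * q - (δ * a + C₀) - Real.log 2) ≤
        K * ((1 - δ) * a - 1 * g A B - δ * q - U P₀ (1 - δ) A) - K * Real.log 2 := by
      rw [← mul_sub]
      exact mul_le_mul_of_nonneg_left (by linarith) hKpos.le
    linarith
  have h4 : (2 + C * Real.log K) * a ≤ ε / 2 * K * a :=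
    mul_le_mul_of_nonneg_right (by nlinarith) ha0
  have h5 : K * ((1 - δ) * a - g A B - δ * q - (δ * a + C₀) - Real.log 2) ≤
      K * (Real.log 2 + ε / 2 * a) := by
    have h6 : Real.log 2 ≤ K * Real.log 2 := by nlinarith
    linarith
  have h6 := le_of_mul_le_mul_left h5 hKpos
  have h7 : δ * a ≤ ε / 4 * a := mul_le_mul_of_nonneg_right hδ2 ha0
  have h8 : δ * q ≤ ε * q := mul_le_mul_of_nonneg_right (by linarith) hq0
  linarith

end Pool.Agent.Helper51.NQ
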