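import Pool.Agent.Helper51.NQ.Inj2

/-!
Few divisors force few bad cells.
-/

set_option autoImplicit false

namespace Pool.Agent.Helper51.NQ

open Finset
open scoped Classical

section

variable [Sys]

theorem hits_take (P : Par) (c : ℤ) (l : List (Finset ℤ)) (W s : ℕ) : ∀ j₀ : ℕ,
    (∀ j < j₀, hits P ((l.drop (j * W)).take W) c ≤ s) →
    hits P (l.take (j₀ * W)) c ≤ j₀ * s := by
  intro j₀
  induction j₀ with
  | zero => intro _; simp [hits]
  | succ j₀ ih =>
    intro h
    have h1 : (j₀ + 1) * W = j₀ * W + W := by ring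
    rw [h1, List.take_add, hits_append]
    have h2 := ih fun j hj => h j (by omega)
    have h3 := h j₀ (by omega)
    have h4 : (j₀ + 1) * s = j₀ * s + s := by ring
    omega

theorem hits_le_of_blocks (P : Par) (c : ℤ) (l : List (Finset ℤ)) (W s J n₁ : ℕ) (hW : 1 ≤ W)
    (hlen : l.length ≤ J * W)
    (h : ∀ j < J, (j + 1) * W + n₁ ≤ l.length → hits P ((l.drop (j * W)).take W) c < s) :
    hits P l c ≤ J * s + n₁ + W := by
  set j₀ : ℕ := (l.length - n₁) / W with hj₀
  have h1 : j₀ ≤ J := by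
    rw [hj₀]
    apply Nat.div_le_of_le_mul
    rw [mul_comm]
    omega
  have h2 := hits_take P c l W s j₀ (fun j hj => by
    refine (h j (by omega) ?_).le
    have h3 : (j + 1) * W ≤ l.length - n₁ := by
      rw [← Nat.le_div_iff_mul_le (by omega)]
      omega
    have h4 : 0 < (j + 1) * W := by positivity
    omega)
  have h3 := hits_append P (l.take (j₀ * W)) (l.drop (j₀ * W)) c
  rw [List.take_append_drop] at h3
  have h4 := hits_le P (l.drop (j₀ * W)) c
  rw [List.length_drop] at h4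
  have h5 : l.length - n₁ < (j₀ + 1) * W := by
    rw [hj₀, mul_comm]
    exact Nat.lt_mul_div_succ _ (by omega)
  have h6 : (j₀ + 1) * W = j₀ * W + W := by ring
  have h7 : j₀ * s ≤ J * s := Nat.mul_le_mul_right s h1
  omega

/-- one step of the argument: at most few elements have many hits -/
theorem count_step (K : ℕ) (hK : 1 ≤ K) (hbig : Big K) (P : Par) (m : ℝ) (hm : 0 < m) (hmx : m ≤ P.x) (hmy : m ≤ P.y)
    (ht : 0 < P.t) (L V M Q J s : ℕ)
    (hL : 1 ≤ P.t * L) (hV : 1 ≤ V) (hM : ((L : ℝ) + 1) ^ V * Real.exp 1 ≤ M)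
    (hQ : 2 * (Real.log 4 * M) ≤ m / 2 * Q) (hs : 1 ≤ s)
    (A : Finset ℤ) (hA : A.Nonempty) (h0 : ∀ c ∈ A, Mem c)
    (hJ : ∀ c ∈ A, (bl P A c).length ≤ J * (V * s)) :
    ((A.filter fun c => J * (K * s) + Q * s + V * s < hits P (bl P A c) c).card : ℝ) ≤
      J * (2 * (Dv A).card + 2 * A.card) * Real.exp (-(s : ℝ)) := by
  have hlog4 : 1 ≤ Real.log 4 := by
    have h1 : Real.log 4 = 2 * Real.log 2 := by
      rw [show (4 : ℝ) = 2 ^ 2 by norm_num, Real.log_pow]; norm_num
    have := Real.log_two_gt_d9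
    linarith
  have hM1 : (1 : ℝ) ≤ M := by
    refine le_trans ?_ hM
    have h1 : (1 : ℝ) ≤ ((L : ℝ) + 1) ^ V := one_le_pow₀ (by
      have : (0 : ℝ) ≤ L := by positivity
      linarith)
    have h2 : (1 : ℝ) ≤ Real.exp 1 := Real.one_le_exp (by norm_num)
    nlinarith
  have hM1' : 1 ≤ M := by exact_mod_cast hM1
  set W := V * s with hW
  have hW1 : 1 ≤ W := Nat.one_le_iff_ne_zero.2 (Nat.mul_ne_zero (by omega) (by omega))
  set E : ℕ → Finset ℤ := fun j => A.filter fun c =>
    ((j + 1) * W - 1) + 1 + Q * s ≤ (bl P A c).length ∧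
      om c (mp ((bl P A c).getD ((j + 1) * W - 1) ∅)) < M * s with hE
  -- the covering
  have hcover : (A.filter fun c => J * (K * s) + Q * s + V * s < hits P (bl P A c) c) ⊆
      (Finset.range J).biUnion fun j => Gd P A W j (K * s) (M * s) ∪ E j := by
    intro c hc
    obtain ⟨hcA, hch⟩ := Finset.mem_filter.1 hc
    by_contra hcon
    rw [Finset.mem_biUnion] at hcon
    push Not at hcon
    have h1 := hits_le_of_blocks P c (bl P A c) W (K * s) J (Q * s) hW1 (hJ c hcA) (fun j hj hjl => by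
      by_contra hge
      push Not at hge
      have h2 := hcon j (Finset.mem_range.2 hj)
      rw [Finset.mem_union] at h2
      push Not at h2
      have hp1 : 1 ≤ (j + 1) * W := Nat.one_le_iff_ne_zero.2 (Nat.mul_ne_zero (by omega) (by omega))
      rcases Nat.lt_or_ge (om c (mp ((bl P A c).getD ((j + 1) * W - 1) ∅))) (M * s) with h3 | h3
      · exact h2.2 (Finset.mem_filter.2 ⟨hcA, by omega, h3⟩)
      · exact h2.1 (Finset.mem_filter.2 ⟨hcA, by omega, hge, h3⟩))
    omega
  have hcard : ((A.filter fun c => J * (K * s) + Q * s + V * s < hits P (bl P A c) c).card : ℝ) ≤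
      ∑ j ∈ Finset.range J, (((Gd P A W j (K * s) (M * s)).card : ℝ) + (E j).card) := by
    have h1 := (Finset.card_le_card hcover).trans Finset.card_biUnion_le
    have h2 : ∑ j ∈ Finset.range J, (Gd P A W j (K * s) (M * s) ∪ E j).card ≤
        ∑ j ∈ Finset.range J, ((Gd P A W j (K * s) (M * s)).card + (E j).card) :=
      Finset.sum_le_sum fun j _ => Finset.card_union_le _ _
    exact_mod_cast h1.trans h2
  -- the first part
  have hGd : ∀ j, ((Gd P A W j (K * s) (M * s)).card : ℝ) ≤ 2 * (Dv A).card * Real.exp (-(s : ℝ)) := by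
    intro j
    have h1 := inj_count K hK hbig P A hA h0 L ht hL W j s (M * s) hW1
    have h2 := Nat.mul_le_mul_left (Gd P A W j (K * s) (M * s)).card (pow_le_choose M hM1' s)
    have h3 : (Gd P A W j (K * s) (M * s)).card * M ^ s ≤ (Dv A).card * ((L + 1) ^ W * 2) := h2.trans h1
    have h4 : ((Gd P A W j (K * s) (M * s)).card : ℝ) * (M : ℝ) ^ s ≤
        (Dv A).card * (((L : ℝ) + 1) ^ W * 2) := by exact_mod_cast h3
    have h5 : (((L : ℝ) + 1) ^ V * Real.exp 1) ^ s ≤ (M : ℝ) ^ s :=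
      pow_le_pow_left₀ (by positivity) hM s
    have h6 : (((L : ℝ) + 1) ^ V * Real.exp 1) ^ s = ((L : ℝ) + 1) ^ W * Real.exp s := by
      rw [mul_pow, ← pow_mul, ← Real.exp_nat_mul, mul_one]
    rw [h6] at h5
    have h7 : (0 : ℝ) < ((L : ℝ) + 1) ^ W := by positivity
    have h8 : ((Gd P A W j (K * s) (M * s)).card : ℝ) * (((L : ℝ) + 1) ^ W * Real.exp s) ≤
        (Dv A).card * (((L : ℝ) + 1) ^ W * 2) :=
      (mul_le_mul_of_nonneg_left h5 (by positivity)).trans h4
    have h9 : ((L : ℝ) + 1) ^ W * (((Gd P A W j (K * s) (M * s)).card : ℝ) * Real.exp s) ≤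
        ((L : ℝ) + 1) ^ W * (2 * (Dv A).card) := by linarith
    have h10 := le_of_mul_le_mul_left h9 h7
    rw [Real.exp_neg, ← div_eq_mul_inv, le_div_iff₀ (Real.exp_pos _)]
    exact h10
  -- the second part
  have hEj : ∀ j, ((E j).card : ℝ) ≤ 2 * A.card * Real.exp (-(s : ℝ)) := by
    intro j
    refine (few_primes P m hm.le hmx hmy A hA h0 ((j + 1) * W - 1) (Q * s) (M * s)).trans ?_
    refine mul_le_mul_of_nonneg_left (Real.exp_le_exp.2 ?_) (by positivity)
    push_cast
    have hs' : (0 : ℝ) ≤ s := by positivity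
    have h1 := mul_le_mul_of_nonneg_right hQ hs'
    have h2 : (1 : ℝ) * 1 ≤ Real.log 4 * M := mul_le_mul hlog4 hM1 (by norm_num) (by linarith)
    have h3 := mul_le_mul_of_nonneg_right h2 hs'
    nlinarith
  refine hcard.trans ?_
  calc ∑ j ∈ Finset.range J, (((Gd P A W j (K * s) (M * s)).card : ℝ) + (E j).card)
      ≤ ∑ j ∈ Finset.range J, (2 * (Dv A).card * Real.exp (-(s : ℝ)) +
        2 * A.card * Real.exp (-(s : ℝ))) :=
        Finset.sum_le_sum fun j _ => add_le_add (hGd j) (hEj j)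
    _ = J * (2 * (Dv A).card + 2 * A.card) * Real.exp (-(s : ℝ)) := by
        rw [Finset.sum_const, Finset.card_range, nsmul_eq_mul]
        ring

end

theorem num1 {σ m V Q Lg K : ℝ} (hσ : 0 < σ) (hm : 0 < m) (hV : 0 < V) :
    ((2 / (σ * m * V) + 1) * K + Q + V) * (σ * Lg) =
        (2 * K / (m * V) + (Q + V + K + 2) * σ - 2 * σ) * Lg := by
  field_simp
  ring

theorem num2 {σ m V Lg : ℝ} (hσ : 0 < σ) (hm : 0 < m) (hV : 0 < V) :
    Lg / m = 2 / (σ * m * V) * (V * (σ * Lg / 2)) := by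
  field_simp

theorem num3 {m q β Lg A : ℝ} (hm : 0 < m) :
    Lg / m * (q * β * m / 2 * A) = A * (q * β * Lg / 2) := by
  field_simp

theorem num4 {m q β J : ℝ} (hm : 0 < m) (hq : 0 < q) (hβ : 0 < β) :
    q * β * m / 2 * (8 * J / (q * β * m) + 1) = 4 * J + q * β * m / 2 := by
  field_simp
  ring

theorem num5 {σ K : ℝ} (hσ : 0 < σ) : σ / 4 * (4 / σ * K) = K := by field_simp

theorem num6 {q β Z : ℝ} (hZ : 0 < Z) : Z * (q * β / (16 * Z)) = q * β / 16 := by field_simp

theorem few (K : ℕ) (hK : 1 ≤ K)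
    (P : Par) (hx : 0 < P.x) (hy : 0 < P.y) (ht : 0 < P.t) (hb : 0 < P.b) (β : ℝ)
    (hβ : 0 < β) : ∃ η C₀ : ℝ, 0 < η ∧ 0 ≤ C₀ ∧ ∀ [Sys], Big K →
      ∀ A : Finset ℤ, A.Nonempty → (∀ c ∈ A, Mem c) →
      ((Dv A).card : ℝ) ≤ (A.card : ℝ) ^ (1 + η) →
      nbs P A ≤ A.card * (β * Real.log A.card + C₀) := by
  set m : ℝ := min P.x P.y with hmdef
  have hm : 0 < m := lt_min hx hy
  have hmx : m ≤ P.x := min_le_left _ _
  have hmy : m ≤ P.y := min_le_right _ _
  set q : ℝ := P.y * P.b with hq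
  have hq0 : 0 < q := by positivity
  set L : ℕ := ⌈1 / P.t⌉₊ with hLdef
  have hL : 1 ≤ P.t * L := by
    have h1 : 1 / P.t ≤ L := Nat.le_ceil _
    rw [div_le_iff₀ ht] at h1
    linarith
  set V : ℕ := ⌈16 * K / (m * q * β)⌉₊ + 1 with hVdef
  have hV1 : 1 ≤ V := by omega
  have hV : 16 * K / (m * q * β) ≤ V := by
    have h1 : 16 * K / (m * q * β) ≤ (⌈16 * K / (m * q * β)⌉₊ : ℝ) := Nat.le_ceil _
    rw [hVdef]; push_cast; linarith
  set M : ℕ := ⌈((L : ℝ) + 1) ^ V * Real.exp 1⌉₊ with hMdef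
  have hM : ((L : ℝ) + 1) ^ V * Real.exp 1 ≤ M := Nat.le_ceil _
  set Q : ℕ := ⌈2 * (Real.log 4 * M) / (m / 2)⌉₊ with hQdef
  have hQ : 2 * (Real.log 4 * M) ≤ m / 2 * Q := by
    have h1 : 2 * (Real.log 4 * M) / (m / 2) ≤ Q := Nat.le_ceil _
    rw [div_le_iff₀ (by positivity)] at h1
    linarith
  have hQV : (0 : ℝ) < Q + V + K + 2 := by positivity
  set σ : ℝ := q * β / (16 * (Q + V + K + 2)) with hσ
  have hσ0 : 0 < σ := by positivity
  have hσe : (Q + V + K + 2) * σ = q * β / 16 := num6 hQV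
  set J : ℕ := ⌈2 / (σ * m * V)⌉₊ with hJdef
  have hVpos : (0 : ℝ) < V := by exact_mod_cast hV1
  have hJ1 : 2 / (σ * m * V) ≤ J := Nat.le_ceil _
  have hJ2 : (J : ℝ) ≤ 2 / (σ * m * V) + 1 := (Nat.ceil_lt_add_one (by positivity)).le
  set K₀ : ℝ := 8 * J / (q * β * m) + 1 with hK₀
  have hK₀1 : 1 ≤ K₀ := by
    have : 0 ≤ 8 * (J : ℝ) / (q * β * m) := by positivity
    linarith
  set Λ₀ : ℝ := 2 / σ + 4 / σ * Real.log K₀ with hΛ₀
  have hlogK : 0 ≤ Real.log K₀ := Real.log_nonneg hK₀1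
  have hΛ₀0 : 0 ≤ Λ₀ := by positivity
  refine ⟨σ / 4, Λ₀ / m, by positivity, by positivity, ?_⟩
  intro _ hbig A hA h0 hD
  have cA : (0 : ℝ) < A.card := by exact_mod_cast hA.card_pos
  set Lg : ℝ := Real.log A.card with hLg
  have hLg0 : 0 ≤ Lg := Real.log_natCast_nonneg _
  have hlen : ∀ c ∈ A, ((bl P A c).length : ℝ) ≤ Lg / m := by
    intro c hc
    rw [le_div_iff₀ hm]
    linarith [len_le P m hm.le hmx hmy A hA h0 c hc]
  by_cases hcase : Lg ≤ Λ₀
  · have h1 : nbs P A ≤ A.card * (Lg / m) := by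
      unfold nbs
      calc ∑ c ∈ A, ((bl P A c).length : ℝ) ≤ ∑ _c ∈ A, Lg / m := Finset.sum_le_sum hlen
        _ = _ := by rw [Finset.sum_const, nsmul_eq_mul]
    refine h1.trans (mul_le_mul_of_nonneg_left ?_ cA.le)
    have h2 : Lg / m ≤ Λ₀ / m := div_le_div_of_nonneg_right hcase hm.le
    have h3 : 0 ≤ β * Lg := by positivity
    linarith
  push Not at hcase
  by_contra hcon
  push Not at hcon
  -- the scale
  set s : ℕ := ⌊σ * Lg⌋₊ with hs
  have hσLg : 2 ≤ σ * Lg := by
    have h1 : 2 / σ ≤ Lg := by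
      have : 0 ≤ 4 / σ * Real.log K₀ := by positivity
      linarith
    rw [div_le_iff₀ hσ0] at h1
    linarith
  have hs1 : (s : ℝ) ≤ σ * Lg := Nat.floor_le (by linarith)
  have hs2 : σ * Lg / 2 ≤ s := by
    have := Nat.lt_floor_add_one (σ * Lg)
    rw [← hs] at this
    linarith
  have hs3 : 1 ≤ s := by
    have : (1 : ℝ) ≤ s := by linarith
    exact_mod_cast this
  have hJlen : ∀ c ∈ A, (bl P A c).length ≤ J * (V * s) := by
    intro c hc
    have h1 := hlen c hc
    have h2 : Lg / m ≤ J * (V * s) := by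
      calc Lg / m = 2 / (σ * m * V) * (V * (σ * Lg / 2)) := num2 hσ0 hm hVpos
        _ ≤ J * (V * s) := by
          apply mul_le_mul hJ1 _ (by positivity) (by positivity)
          exact mul_le_mul_of_nonneg_left hs2 (by positivity)
    exact_mod_cast h1.trans h2
  have hstep := count_step K hK hbig P m hm hmx hmy ht L V M Q J s hL hV1 hM hQ hs3 A hA h0 hJlen
  set G' := A.filter fun c => J * (K * s) + Q * s + V * s < hits P (bl P A c) c with hG'
  -- the threshold
  have hthr : ((J * (K * s) + Q * s + V * s : ℕ) : ℝ) ≤ q * β * Lg / 2 := by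
    push_cast
    have h1 : (J : ℝ) * (K * s) + Q * s + V * s = (J * K + Q + V) * s := by ring
    rw [h1]
    have hK0 : (0 : ℝ) ≤ K := by positivity
    have h2 : ((J : ℝ) * K + Q + V) * s ≤ ((2 / (σ * m * V) + 1) * K + Q + V) * (σ * Lg) := by
      have := mul_le_mul_of_nonneg_right hJ2 hK0
      exact mul_le_mul (by linarith) hs1 (by positivity) (by positivity)
    refine h2.trans ?_
    have h3 : ((2 / (σ * m * V) + 1) * K + Q + V) * (σ * Lg) =
        (2 * K / (m * V) + (Q + V + K + 2) * σ - 2 * σ) * Lg := num1 hσ0 hm hVpos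
    rw [h3, hσe]
    have h4 : 2 * K / (m * V) ≤ q * β / 8 := by
      rw [div_le_div_iff₀ (by positivity) (by norm_num)]
      have h5 : 16 * K ≤ V * (m * q * β) := by
        rw [div_le_iff₀ (by positivity)] at hV
        exact hV
      have e5 : q * β * (m * V) = V * (m * q * β) := by ring
      rw [e5]
      linarith
    have h6 : 2 * K / (m * V) + q * β / 16 - 2 * σ ≤ q * β / 2 := by
      have : 0 < q * β := by positivity
      linarith
    calc (2 * K / (m * V) + q * β / 16 - 2 * σ) * Lg ≤ q * β / 2 * Lg :=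
          mul_le_mul_of_nonneg_right h6 hLg0
      _ = q * β * Lg / 2 := by ring
  -- the number of elements with many hits
  have hhits := hits_ge P hb.le A hA h0
  have hsum : ∑ c ∈ A, (hits P (bl P A c) c : ℝ) ≤ A.card * (q * β * Lg / 2) +
      G'.card * (Lg / m) := by
    have h1 : ∀ c ∈ A, (hits P (bl P A c) c : ℝ) ≤ q * β * Lg / 2 +
        (if J * (K * s) + Q * s + V * s < hits P (bl P A c) c then Lg / m else 0) := by
      intro c hc
      split_ifs with hh
      · have h2 : (hits P (bl P A c) c : ℝ) ≤ (bl P A c).length := by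
          exact_mod_cast hits_le P _ c
        have h3 := hlen c hc
        have : 0 ≤ q * β * Lg / 2 := by positivity
        linarith
      · push Not at hh
        have h2 : (hits P (bl P A c) c : ℝ) ≤ ((J * (K * s) + Q * s + V * s : ℕ) : ℝ) := by
          exact_mod_cast hh
        linarith
    refine (Finset.sum_le_sum h1).trans (le_of_eq ?_)
    rw [Finset.sum_add_distrib, Finset.sum_const, nsmul_eq_mul, ← Finset.sum_filter,
      Finset.sum_const, nsmul_eq_mul]
  have h1 : A.card * (q * β * Lg / 2) < G'.card * (Lg / m) := by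
    have h2 : q * (A.card * (β * Lg)) ≤ q * nbs P A := by
      apply mul_le_mul_of_nonneg_left _ hq0.le
      have h3 : (A.card : ℝ) * (β * Lg) ≤ A.card * (β * Lg + Λ₀ / m) :=
        mul_le_mul_of_nonneg_left (by
          have : 0 ≤ Λ₀ / m := by positivity
          linarith) cA.le
      linarith
    have h2' : q * (A.card * (β * Lg)) < q * nbs P A := by
      apply mul_lt_mul_of_pos_left _ hq0
      have h3 : (A.card : ℝ) * (β * Lg) ≤ A.card * (β * Lg + Λ₀ / m) :=
        mul_le_mul_of_nonneg_left (by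
          have : 0 ≤ Λ₀ / m := by positivity
          linarith) cA.le
      linarith
    linarith
  have hLgpos : 0 < Lg := by
    by_contra hneg
    push Not at hneg
    have : σ * Lg ≤ 0 := mul_nonpos_of_nonneg_of_nonpos hσ0.le hneg
    linarith
  have h2 : q * β * m / 2 * A.card < G'.card := by
    have h3 : Lg / m * (q * β * m / 2 * A.card) < Lg / m * G'.card := by
      have h4 : Lg / m * (q * β * m / 2 * A.card) = A.card * (q * β * Lg / 2) := num3 hm
      rw [h4]
      linarith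
    exact lt_of_mul_lt_mul_left h3 (by positivity)
  -- the upper bound
  have hD' : ((Dv A).card : ℝ) ≤ A.card * Real.exp (σ / 4 * Lg) := by
    refine hD.trans (le_of_eq ?_)
    rw [Real.rpow_add cA, Real.rpow_one, Real.rpow_def_of_pos cA, mul_comm (Real.log _)]
  have h3 : (G'.card : ℝ) ≤ 4 * J * A.card * Real.exp (-(σ * Lg / 4)) := by
    refine hstep.trans ?_
    have h4 : (A.card : ℝ) ≤ A.card * Real.exp (σ / 4 * Lg) := by
      have := Real.one_le_exp (by positivity : 0 ≤ σ / 4 * Lg)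
      nlinarith
    have h5 : (J : ℝ) * (2 * (Dv A).card + 2 * A.card) * Real.exp (-(s : ℝ)) ≤
        J * (4 * (A.card * Real.exp (σ / 4 * Lg))) * Real.exp (-(σ * Lg / 2)) := by
      apply mul_le_mul _ _ (Real.exp_pos _).le (by positivity)
      · apply mul_le_mul_of_nonneg_left _ (by positivity)
        linarith
      · apply Real.exp_le_exp.2
        linarith
    refine h5.trans (le_of_eq ?_)
    have h6 : Real.exp (-(σ * Lg / 4)) = Real.exp (σ / 4 * Lg) * Real.exp (-(σ * Lg / 2)) := by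
      rw [← Real.exp_add]
      congr 1
      ring
    rw [h6]
    ring
  have h4 : Real.exp (-(σ * Lg / 4)) ≤ 1 / K₀ := by
    have h5 : Real.log K₀ ≤ σ * Lg / 4 := by
      have h6 : 4 / σ * Real.log K₀ ≤ Lg := by
        have : 0 < 2 / σ := by positivity
        linarith
      have h7 : σ / 4 * (4 / σ * Real.log K₀) = Real.log K₀ := num5 hσ0
      rw [← h7]
      have := mul_le_mul_of_nonneg_left h6 (by positivity : 0 ≤ σ / 4)
      linarith
    rw [Real.exp_neg, one_div]
    apply inv_anti₀ (by linarith)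
    calc K₀ = Real.exp (Real.log K₀) := (Real.exp_log (by linarith)).symm
      _ ≤ _ := Real.exp_le_exp.2 h5
  have h5 : 4 * J * A.card * (1 / K₀) ≤ q * β * m / 2 * A.card := by
    have h6 : 4 * (J : ℝ) * (1 / K₀) ≤ q * β * m / 2 := by
      rw [mul_one_div, div_le_iff₀ (by linarith)]
      have h7 : q * β * m / 2 * K₀ = 4 * J + q * β * m / 2 := num4 hm hq0 hβ
      rw [h7]
      have : 0 < q * β * m / 2 := by positivity
      linarith
    have := mul_le_mul_of_nonneg_right h6 cA.le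
    linarith
  have h6 : 4 * J * A.card * Real.exp (-(σ * Lg / 4)) ≤ 4 * J * A.card * (1 / K₀) :=
    mul_le_mul_of_nonneg_left h4 (by positivity)
  linarith

end Pool.Agent.Helper51.NQ
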