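import Pool.Agent.Helper51.NQ.Few

/-!
The statements in terms of finite sequences of pairs of generators.
-/

set_option autoImplicit false

namespace Pool.Agent.Helper51.NQ

open Finset
open H633R5.FS (PS PS_nonempty)
open scoped Pointwise

/-- every `u i` has a divisor `q ≥ 2` which is coprime to `w i` and to the earlier `u j`, `w j`, and
whose `κ`-th power is at least `u i`, `w i` and the earlier `u j`, `w j` -/
def NewPairs (κ : ℕ) {r : ℕ} (u w : Fin r → ℕ) : Prop :=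
  ∀ i, 0 < u i ∧ 0 < w i ∧ ∃ q : ℕ, 2 ≤ q ∧ q ∣ u i ∧ Nat.Coprime q (w i) ∧
    (∀ j, j < i → Nat.Coprime q (u j) ∧ Nat.Coprime q (w j)) ∧
    ∀ j, j ≤ i → u j ≤ q ^ κ ∧ w j ≤ q ^ κ

/-- the product of the generators with exponents `f` -/
def pw {r : ℕ} (u w E f : Fin r → ℕ) : ℕ := ∏ i, u i ^ f i * w i ^ (E i - f i)

/-- `D` contains with every vector all smaller ones -/
def Down {r : ℕ} (D : Finset (Fin r → ℕ)) : Prop := ∀ f ∈ D, ∀ f' : Fin r → ℕ, f' ≤ f → f' ∈ D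

/-- the sums of `K` elements of `D` -/
def sums {r : ℕ} (K : ℕ) (D : Finset (Fin r → ℕ)) : Finset (Fin r → ℕ) :=
  (Fintype.piFinset fun _ : Fin K => D).image fun g => ∑ j, g j

section

variable {κ : ℕ} {r : ℕ} {u w : Fin r → ℕ}

/-- the divisors -/
noncomputable def qf (h : NewPairs κ u w) (i : Fin r) : ℕ := (h i).2.2.choose

theorem qf_spec (h : NewPairs κ u w) (i : Fin r) :
    2 ≤ qf h i ∧ qf h i ∣ u i ∧ Nat.Coprime (qf h i) (w i) ∧
    (∀ j, j < i → Nat.Coprime (qf h i) (u j) ∧ Nat.Coprime (qf h i) (w j)) ∧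
    ∀ j, j ≤ i → u j ≤ qf h i ^ κ ∧ w j ≤ qf h i ^ κ := (h i).2.2.choose_spec

/-- the value at the index `i + 1` -/
noncomputable def ext {α : Type*} (f : Fin r → α) (d : α) (n : ℕ) : α :=
  if h : n - 1 < r then f ⟨n - 1, h⟩ else d

theorem ext_succ {α : Type*} (f : Fin r → α) (d : α) (i : Fin r) : ext f d ((i : ℕ) + 1) = f i := by
  unfold ext
  have h1 : (i : ℕ) + 1 - 1 = i := by omega
  have h2 : (i : ℕ) + 1 - 1 < r := by rw [h1]; exact i.2
  rw [dif_pos h2]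
  congr 1

/-- the system of generators -/
noncomputable def mkSys (h : NewPairs κ u w) (E : Fin r → ℕ) : Sys where
  Q := Finset.univ.image fun i : Fin r => (i : ℕ) + 1
  u := ext u 1
  w := ext w 1
  q := ext (qf h) 1
  E := ext E 0
  ipos := by
    intro n hn
    obtain ⟨i, _, rfl⟩ := mem_image.1 hn
    omega
  upos := by
    intro n hn
    obtain ⟨i, hi, rfl⟩ := mem_image.1 hn
    rw [ext_succ]
    exact (h i).1
  wpos := by
    intro n hn
    obtain ⟨i, hi, rfl⟩ := mem_image.1 hn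
    rw [ext_succ]
    exact (h i).2.1
  two := by
    intro n hn
    obtain ⟨i, hi, rfl⟩ := mem_image.1 hn
    rw [ext_succ]
    exact (qf_spec h i).1
  dvd := by
    intro n hn
    obtain ⟨i, hi, rfl⟩ := mem_image.1 hn
    rw [ext_succ, ext_succ]
    exact (qf_spec h i).2.1
  cow := by
    intro n hn
    obtain ⟨i, hi, rfl⟩ := mem_image.1 hn
    rw [ext_succ, ext_succ]
    exact (qf_spec h i).2.2.1
  cop := by
    intro n hn m hm hmn
    obtain ⟨i, hi, rfl⟩ := mem_image.1 hn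
    obtain ⟨j, hj, rfl⟩ := mem_image.1 hm
    rw [ext_succ, ext_succ, ext_succ]
    exact (qf_spec h i).2.2.2.1 j (by
      rw [Fin.lt_def]
      omega)

theorem mkSys_big (h : NewPairs κ u w) (E : Fin r → ℕ) : @Big (mkSys h E) (2 * κ + 1) := by
  intro n hn m hm m' hm' hmn hmn'
  obtain ⟨i, hi, rfl⟩ := mem_image.1 hn
  obtain ⟨j, hj, rfl⟩ := mem_image.1 hm
  obtain ⟨j', hj', rfl⟩ := mem_image.1 hm'
  show ext u 1 ((j : ℕ) + 1) * ext w 1 ((j' : ℕ) + 1) ≤ ext (qf h) 1 ((i : ℕ) + 1) ^ (2 * κ + 1)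
  rw [ext_succ, ext_succ, ext_succ]
  obtain ⟨h2, _, _, _, h5⟩ := qf_spec h i
  have h3 := (h5 j (by rw [Fin.le_def]; omega)).1
  have h4 := (h5 j' (by rw [Fin.le_def]; omega)).2
  calc u j * w j' ≤ qf h i ^ κ * qf h i ^ κ := Nat.mul_le_mul h3 h4
    _ = qf h i ^ (2 * κ) := by rw [← pow_add, two_mul]
    _ ≤ qf h i ^ (2 * κ + 1) := Nat.pow_le_pow_right (by omega) (by omega)

theorem mkSys_pr (h : NewPairs κ u w) (E : Fin r → ℕ) (e : ℕ → ℕ) :
    @pr (mkSys h E) e = pw u w E fun i => e ((i : ℕ) + 1) := by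
  show ∏ n ∈ Finset.univ.image (fun i : Fin r => (i : ℕ) + 1),
    ext u 1 n ^ e n * ext w 1 n ^ (ext E 0 n - e n) = _
  rw [Finset.prod_image]
  · refine prod_congr rfl fun i _ => ?_
    rw [ext_succ, ext_succ, ext_succ]
  · intro i _ j _ hij
    apply Fin.ext
    have : (i : ℕ) + 1 = (j : ℕ) + 1 := hij
    omega

theorem mkSys_pw (h : NewPairs κ u w) (E f : Fin r → ℕ) :
    @pr (mkSys h E) (ext f 0) = pw u w E f := by
  rw [mkSys_pr]
  congr 1
  funext i
  exact ext_succ _ _ _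

theorem ext_le (h : NewPairs κ u w) (E f : Fin r → ℕ) (hf : f ≤ E) :
    ∀ b ∈ @Gn (mkSys h E), ext f 0 b ≤ @Eb (mkSys h E) b := by
  intro b hb
  obtain ⟨i, _, rfl⟩ := mem_image.1 hb
  show ext f 0 ((i : ℕ) + 1) ≤ ext E 0 ((i : ℕ) + 1)
  rw [ext_succ, ext_succ]
  exact hf i

theorem mkSys_mem (h : NewPairs κ u w) (E : Fin r → ℕ) {a : ℤ} {f : Fin r → ℕ} (hf : f ≤ E)
    (ha : a.natAbs = pw u w E f) : @Mem (mkSys h E) a :=
  ⟨ext f 0, ext_le h E f hf, by rw [mkSys_pw, ha]⟩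

theorem mkSys_vl (h : NewPairs κ u w) (E : Fin r → ℕ) {a : ℤ} {f : Fin r → ℕ} (hf : f ≤ E)
    (ha : a.natAbs = pw u w E f) (i : Fin r) : @vl (mkSys h E) ((i : ℕ) + 1) a = f i := by
  letI := mkSys h E
  rw [vl_eq (e := ext f 0) (ext_le h E f hf) (by rw [mkSys_pw, ha])
    (mem_image.2 ⟨i, mem_univ i, rfl⟩)]
  exact ext_succ _ _ _

/-- the sub-products of the elements of `A` lie in a down-closed set -/
theorem Dv_card_le (h : NewPairs κ u w) (E : Fin r → ℕ) (D : Finset (Fin r → ℕ))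
    (hD : Down D) (hE : ∀ f ∈ D, f ≤ E)
    (A : Finset ℤ) (hA : ∀ a ∈ A, ∃ f ∈ D, a.natAbs = pw u w E f) :
    (@Dv (mkSys h E) A).card ≤ D.card := by
  classical
  letI := mkSys h E
  have hsub : Dv A ⊆ D.image (pw u w E) := by
    intro d hd
    obtain ⟨a, ha, hda⟩ := mem_biUnion.1 hd
    obtain ⟨e, he, rfl⟩ := mem_dvs.1 hda
    obtain ⟨f, hf, haf⟩ := hA a ha
    refine mem_image.2 ⟨fun i => e ((i : ℕ) + 1), hD f hf _ fun i => ?_, (mkSys_pr h E e).symm⟩
    have h1 := he ((i : ℕ) + 1) (mem_image.2 ⟨i, mem_univ i, rfl⟩)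
    rwa [mkSys_vl h E (hE f hf) haf i] at h1
  exact (card_le_card hsub).trans card_image_le

theorem card_PS_le (u w E : Fin r → ℕ) {K : ℕ}
    (D : Finset (Fin r → ℕ)) (hE : ∀ f ∈ D, f ≤ E) (A : Finset ℤ)
    (hA : ∀ a ∈ A, ∃ f ∈ D, a.natAbs = pw u w E f) :
    (PS fun _ : Fin K => A).card ≤ 2 * (sums K D).card := by
  classical
  set vv : (Fin r → ℕ) → ℕ := fun S => ∏ i, u i ^ S i * w i ^ (K * E i - S i) with hvv
  set V : Finset ℤ := ((sums K D) ×ˢ ({1, -1} : Finset ℤ)).image fun z =>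
    z.2 * ((vv z.1 : ℕ) : ℤ) with hV
  have hsub : (PS fun _ : Fin K => A) ⊆ V := by
    intro z hz
    obtain ⟨f, hf, rfl⟩ := mem_image.1 hz
    rw [Fintype.mem_piFinset] at hf
    choose g hg hfg using fun j => hA (f j) (hf j)
    have hSD : (∑ j, g j) ∈ sums K D :=
      mem_image.2 ⟨g, Fintype.mem_piFinset.2 hg, rfl⟩
    have habs : (∏ j, f j).natAbs = vv (∑ j, g j) := by
      have h3 : (∏ j, f j).natAbs = ∏ j, (f j).natAbs := map_prod Int.natAbsHom f Finset.univ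
      rw [h3, prod_congr rfl fun j _ => hfg j]
      unfold pw
      rw [Finset.prod_comm, hvv]
      refine prod_congr rfl fun i _ => ?_
      rw [Finset.prod_mul_distrib, Finset.prod_pow_eq_pow_sum, Finset.prod_pow_eq_pow_sum,
        Finset.sum_apply]
      congr 2
      have h4 : ∑ j, (E i - g j i) + ∑ j, g j i = K * E i := by
        rw [← Finset.sum_add_distrib]
        calc ∑ j, (E i - g j i + g j i) = ∑ _j : Fin K, E i :=
              Finset.sum_congr rfl fun j _ => Nat.sub_add_cancel (hE _ (hg j) i)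
          _ = K * E i := by simp
      omega
    rw [hV, mem_image]
    rcases le_total 0 (∏ j, f j) with h | h
    · refine ⟨(∑ j, g j, 1), mem_product.2 ⟨hSD, by simp⟩, ?_⟩
      show 1 * ((vv (∑ j, g j) : ℕ) : ℤ) = ∏ j, f j
      rw [← habs, one_mul, Int.natAbs_of_nonneg h]
    · refine ⟨(∑ j, g j, -1), mem_product.2 ⟨hSD, by simp⟩, ?_⟩
      show -1 * ((vv (∑ j, g j) : ℕ) : ℤ) = ∏ j, f j
      rw [← habs, Int.ofNat_natAbs_of_nonpos h]
      ring
  refine (card_le_card hsub).trans (card_image_le.trans ?_)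
  rw [card_product]
  have : ({1, -1} : Finset ℤ).card ≤ 2 := Finset.card_le_two
  rw [mul_comm]
  exact Nat.mul_le_mul_right _ this

end

end Pool.Agent.Helper51.NQ
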