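import Pool.Agent.Helper51.NQ.Cnt

/-!
The injection from pairs (element, set of small generators) to divisors and profiles.
-/

set_option autoImplicit false

namespace Pool.Agent.Helper51.NQ

open Finset
open NP (ps)
open scoped Classical

variable [Sys]

/-- elements with the same exponents at the large generators have the same bad cells -/
theorem path_eq (P : Par) : ∀ C : Finset ℤ, C.Nonempty → (∀ c ∈ C, Mem c) →
    ∀ c ∈ C, ∀ c' ∈ C, ∀ (i Y : ℕ),
    (∀ q ∈ Gn, Y ≤ q → vl q c = vl q c') →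
    i < (bl P C c).length → Y ≤ mp ((bl P C c).getD i ∅) →
    (bl P C c').take (i + 1) = (bl P C c).take (i + 1) := by
  apply tree_ind
  · intro C _ h0 hn c hc c' _ i Y _ hi
    rw [bl_nil P hn h0 hc] at hi
    simp at hi
  · intro C h0 hn ih1 ih2 c hc c' hc' i Y hq hi hY
    have hC' := nonempty_of_ncp hn
    have hpr := ((mem_ncp h0).1 (mp_mem hn)).1
    have hmem : (bl P C c).getD i ∅ ∈ bl P C c := by
      rw [List.getD_eq_getElem _ _ hi]
      exact List.getElem_mem hi
    have hYp : Y ≤ mp C := hY.trans (mp_mono (mem_bl P C hC' h0 c hc _ hmem).1)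
    have hv := hq (mp C) hpr hYp
    have key : ∀ D : Finset ℤ, c ∈ D → c' ∈ D →
        (∀ c ∈ D, ∀ c' ∈ D, ∀ (i Y : ℕ),
          (∀ q ∈ Gn, Y ≤ q → vl q c = vl q c') →
          i < (bl P D c).length → Y ≤ mp ((bl P D c).getD i ∅) →
          (bl P D c').take (i + 1) = (bl P D c).take (i + 1)) →
        bl P C c = (if Bd P C then [C] else []) ++ bl P D c →
        bl P C c' = (if Bd P C then [C] else []) ++ bl P D c' →
        (bl P C c').take (i + 1) = (bl P C c).take (i + 1) := by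
      intro D hcD hcD' ih he he'
      rw [he] at hi hY
      rw [he, he']
      by_cases hB : Bd P C
      · simp only [if_pos hB, List.singleton_append] at hi hY ⊢
        rcases i with _ | i
        · simp
        · rw [List.take_succ_cons, List.take_succ_cons]
          congr 1
          rw [List.getD_cons_succ] at hY
          exact ih c hcD c' hcD' i Y hq (by simpa using hi) hY
      · simp only [if_neg hB, List.nil_append] at hi hY ⊢
        exact ih c hcD c' hcD' i Y hq hi hY
    have hc2 : c ∈ hC C ∨ c ∈ lC C := by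
      rw [← Finset.mem_union, hC_union_lC]; exact hc
    rcases hc2 with h1 | h1
    · have h2 : c' ∈ hC C := mem_hC.2 ⟨hc', by rw [← hv]; exact (mem_hC.1 h1).2⟩
      exact key (hC C) h1 h2 ih1 (bl_hi P hn h1) (bl_hi P hn h2)
    · have h2 : c' ∈ lC C := mem_lC.2 ⟨hc', by rw [← hv]; exact (mem_lC.1 h1).2⟩
      exact key (lC C) h1 h2 ih2 (bl_lo P hn h1) (bl_lo P hn h2)

/-- the generators of the bad cells decrease, strictly after a cell where `c` is in the low part -/
theorem path_mono (P : Par) : ∀ C : Finset ℤ, C.Nonempty → (∀ c ∈ C, Mem c) → ∀ c ∈ C,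
    (bl P C c).Pairwise fun B B' => mp B' ≤ mp B ∧ (c ∈ lC B → mp B' < mp B) := by
  apply tree_ind
  · intro C _ h0 hn c hc
    rw [bl_nil P hn h0 hc]
    exact List.Pairwise.nil
  · intro C h0 hn ih1 ih2 c hc
    have hC' := nonempty_of_ncp hn
    have hc2 : c ∈ hC C ∨ c ∈ lC C := by
      rw [← Finset.mem_union, hC_union_lC]; exact hc
    rcases hc2 with h1 | h1
    · rw [bl_hi P hn h1]
      split_ifs
      · rw [List.singleton_append, List.pairwise_cons]
        refine ⟨?_, ih1 c h1⟩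
        intro B hB
        have h2 := (mem_bl P (hC C) (hC_nonempty hn) (fun c hc => h0 c (hC_subset C hc)) c h1 B
          hB).1
        refine ⟨mp_mono (h2.trans (hC_subset C)), fun h3 => ?_⟩
        exact absurd (mem_lC.1 h3).2 (mem_hC.1 h1).2
      · rw [List.nil_append]
        exact ih1 c h1
    · rw [bl_lo P hn h1]
      split_ifs
      · rw [List.singleton_append, List.pairwise_cons]
        refine ⟨?_, ih2 c h1⟩
        intro B hB
        have h2 := (mem_bl P (lC C) (lC_nonempty hC') (fun c hc => h0 c (lC_subset C hc)) c h1 B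
          hB).1
        exact ⟨mp_mono (h2.trans (lC_subset C)),
          fun _ => (mp_mono h2).trans_lt (mp_lC_lt h0 hn)⟩
      · rw [List.nil_append]
        exact ih2 c h1

theorem nz {b : ℕ} (hb : b ∈ Gn) : NeZero (nq b) := by
  have h := Sys.two b hb
  exact ⟨by change Sys.q b ≠ 0; omega⟩

/-- the heavy classes of a cell -/
noncomputable def HS (P : Par) (B : Finset ℤ) : Finset ℕ :=
  ((lC B).filter fun c => Hv P B c).image fun c => (pz B c).val

theorem card_HS (P : Par) (B : Finset ℤ) (hpr : mp B ∈ Gn) (hl : (lC B).Nonempty) :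
    P.t * (HS P B).card ≤ 1 := by
  have : NeZero (nq (mp B)) := nz hpr
  have cl : (0 : ℝ) < (lC B).card := by exact_mod_cast hl.card_pos
  have h1 : ∑ v ∈ HS P B, (((lC B).filter fun c => (pz B c).val = v).card : ℝ) ≤
      (lC B).card := by
    have h2 := Finset.card_eq_sum_card_image (fun c => (pz B c).val) (lC B)
    have h3 : ((lC B).card : ℝ) = ∑ v ∈ (lC B).image (fun c => (pz B c).val),
        (((lC B).filter fun c => (pz B c).val = v).card : ℝ) := by
      exact_mod_cast h2
    rw [h3]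
    apply Finset.sum_le_sum_of_subset_of_nonneg
    · exact Finset.image_subset_image (Finset.filter_subset _ _)
    · intro v _ _
      positivity
  have h2 : ∀ v ∈ HS P B, P.t * (lC B).card ≤
      (((lC B).filter fun c => (pz B c).val = v).card : ℝ) := by
    intro v hv
    obtain ⟨c, hc, rfl⟩ := Finset.mem_image.1 hv
    have h3 := (Finset.mem_filter.1 hc).2
    unfold Hv at h3
    refine h3.trans (le_of_eq ?_)
    congr 2
    apply Finset.filter_congr
    intro d _
    constructor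
    · intro h; rw [h]
    · intro h; exact ZMod.val_injective _ h
  have h3 := (Finset.sum_le_sum h2).trans h1
  rw [Finset.sum_const, nsmul_eq_mul] at h3
  have h4 : P.t * (HS P B).card * (lC B).card ≤ 1 * (lC B).card := by linarith
  exact le_of_mul_le_mul_right h4 cl

/-- the label of `c` at a cell -/
noncomputable def lab (P : Par) (B : Finset ℤ) (c : ℤ) : ℕ :=
  if Ht P B c then 1 + ((HS P B).filter fun v => v < (pz B c).val).card else 0

theorem mem_HS {P : Par} {B : Finset ℤ} {c : ℤ} (h : Ht P B c) :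
    (pz B c).val ∈ HS P B :=
  Finset.mem_image.2 ⟨c, Finset.mem_filter.2 ⟨h.1, h.2⟩, rfl⟩

theorem lab_le (P : Par) (B : Finset ℤ) (c : ℤ) : lab P B c ≤ (HS P B).card := by
  unfold lab
  split_ifs with h
  · have h1 : ((HS P B).filter fun v => v < (pz B c).val) ⊂ HS P B := by
      rw [Finset.ssubset_iff_of_subset (Finset.filter_subset _ _)]
      refine ⟨_, mem_HS h, ?_⟩
      rw [Finset.mem_filter]
      exact fun h => lt_irrefl _ h.2
    have := Finset.card_lt_card h1
    omega
  · exact Nat.zero_le _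

omit [Sys] in
theorem rank_inj {S : Finset ℕ} {a b : ℕ} (ha : a ∈ S) (hb : b ∈ S)
    (h : (S.filter fun v => v < a).card = (S.filter fun v => v < b).card) : a = b := by
  by_contra hne
  have key : ∀ a b : ℕ, a ∈ S → a < b →
      (S.filter fun v => v < a).card < (S.filter fun v => v < b).card := by
    intro a b ha hab
    apply Finset.card_lt_card
    rw [Finset.ssubset_iff_of_subset]
    · refine ⟨a, Finset.mem_filter.2 ⟨ha, hab⟩, ?_⟩
      rw [Finset.mem_filter]
      exact fun h => lt_irrefl _ h.2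
    · intro v hv
      obtain ⟨h1, h2⟩ := Finset.mem_filter.1 hv
      exact Finset.mem_filter.2 ⟨h1, h2.trans hab⟩
  rcases lt_or_gt_of_ne hne with h1 | h1
  · exact absurd h (key a b ha h1).ne
  · exact absurd h (key b a hb h1).ne'

theorem lab_inj (P : Par) {B : Finset ℤ} (hpr : mp B ∈ Gn) {c c' : ℤ}
    (h : lab P B c = lab P B c') (hc : Ht P B c) :
    Ht P B c' ∧ pz B c = pz B c' := by
  have : NeZero (nq (mp B)) := nz hpr
  unfold lab at h
  rw [if_pos hc] at h
  by_cases hc' : Ht P B c'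
  · rw [if_pos hc'] at h
    refine ⟨hc', ZMod.val_injective _ (rank_inj (mem_HS hc) (mem_HS hc') (by omega))⟩
  · rw [if_neg hc'] at h
    omega

/-- the exponents of a set -/
noncomputable def ind (T : Finset ℕ) : ℕ → ℕ := fun b => if b ∈ T then 1 else 0

/-- the product of the upper generators of `T` -/
noncomputable def pu (T : Finset ℕ) : ℕ := ∏ r ∈ T, ub r

/-- the product of the lower generators of `T` -/
noncomputable def pl (T : Finset ℕ) : ℕ := ∏ r ∈ T, wb r

theorem pu_pos {T : Finset ℕ} (hT : T ⊆ Gn) : 0 < pu T :=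
  Finset.prod_pos fun r hr => Sys.upos r (hT hr)

theorem pl_pos {T : Finset ℕ} (hT : T ⊆ Gn) : 0 < pl T :=
  Finset.prod_pos fun r hr => Sys.wpos r (hT hr)

/-- the sub-product of `c` with the exponents of the generators of `T` diminished -/
noncomputable def dd (c : ℤ) (T : Finset ℕ) : ℕ := pr fun b => vl b c - ind T b

theorem dd_mem {c : ℤ} (hM : Mem c) (T : Finset ℕ) : Mem (dd c T : ℤ) :=
  Mem.pr fun b hb => (Nat.sub_le _ _).trans (hM.le b hb)

theorem vl_dd {c : ℤ} (hM : Mem c) (T : Finset ℕ) {b : ℕ} (hb : b ∈ Gn) :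
    vl b (dd c T : ℤ) = vl b c - ind T b :=
  vl_eq (e := fun b => vl b c - ind T b) (fun b hb => (Nat.sub_le _ _).trans (hM.le b hb))
    (Int.natAbs_natCast _) hb

theorem vl_dd_of_lt {c : ℤ} (hM : Mem c) {T : Finset ℕ} {y : ℕ} (hT : ∀ r ∈ T, r < y) {b : ℕ}
    (hb : b ∈ Gn) (hy : y ≤ b) : vl b (dd c T : ℤ) = vl b c := by
  rw [vl_dd hM T hb]
  unfold ind
  rw [if_neg, Nat.sub_zero]
  intro h
  have := hT b h
  omega

theorem fa_step {b n : ℕ} (h1 : 1 ≤ n) (h2 : n ≤ Eb b) : fa b n * wb b = fa b (n - 1) * ub b := by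
  obtain ⟨m, rfl⟩ : ∃ m, n = m + 1 := ⟨n - 1, by omega⟩
  unfold fa
  have e1 : Eb b - m = (Eb b - (m + 1)) + 1 := by omega
  rw [Nat.add_sub_cancel, e1, pow_succ (ub b), pow_succ (wb b)]
  ring

/-- the relation between `c` and its sub-product -/
theorem dd_fac {c : ℤ} (hM : Mem c) {T : Finset ℕ} (hT : T ⊆ sp c) :
    c.natAbs * pl T = dd c T * pu T := by
  have hT' : T ⊆ Gn := fun r hr => (Finset.mem_filter.1 (hT hr)).1
  have e1 : ∀ f : ℕ → ℕ, (∏ r ∈ T, f r) = ∏ r ∈ Gn, if r ∈ T then f r else 1 := by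
    intro f
    rw [Finset.prod_ite_mem, Finset.inter_eq_right.2 hT']
  unfold pl pu dd
  rw [hM.spec, e1, e1 ub]
  unfold pr
  rw [← Finset.prod_mul_distrib, ← Finset.prod_mul_distrib]
  refine Finset.prod_congr rfl fun b hb => ?_
  show fa b (vl b c) * (if b ∈ T then wb b else 1) =
    fa b (vl b c - ind T b) * (if b ∈ T then ub b else 1)
  unfold ind
  split_ifs with h
  · have h3 := (Finset.mem_filter.1 (hT h)).2
    exact fa_step (by omega) (hM.le b hb)
  · rw [Nat.sub_zero]

/-- the arithmetic of one hit -/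
theorem hit_dvd {B : Finset ℤ} (hq : mp B ∈ Gn) {c c' : ℤ} (hc : c ∈ lC B)
    {d x y x' y' : ℕ} (h : c.natAbs * x = d * y)
    (h' : c'.natAbs * x' = d * y') (hs : 0 < c ↔ 0 < c')
    (hM : Mem c) (hM' : Mem c')
    (hd : Mem (d : ℤ)) (hv : ∀ b ∈ Gn, mp B ≤ b → vl b c = vl b (d : ℤ))
    (hv' : ∀ b ∈ Gn, mp B ≤ b → vl b c' = vl b (d : ℤ))
    (hps : pz B c = pz B c') : (nq (mp B) : ℤ) ∣ (y : ℤ) * x' - y' * x := by
  obtain ⟨t, ht⟩ : ∃ t, t = vl (mp B) (d : ℤ) := ⟨_, rfl⟩
  have hup : ∀ z : ℤ, (∀ b ∈ Gn, mp B ≤ b → vl b z = vl b (d : ℤ)) →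
      (ub (mp B) ^ t * gt (mp B) fun b' => vl b' z) = up (mp B) (d : ℤ) := by
    intro z hz
    unfold up
    rw [ht]
    congr 1
    unfold gt
    refine Finset.prod_congr rfl fun b hb => ?_
    obtain ⟨h1, h2⟩ := Finset.mem_filter.1 hb
    show fa b (vl b z) = fa b (vl b (d : ℤ))
    rw [hz b h1 h2.le]
  have hDd : md B = up (mp B) (d : ℤ) := by
    rw [md_eq hc, ← hup c hv]
    unfold up
    rw [hv _ hq le_rfl, ← ht]
  have hfac : ∀ z : ℤ, Mem z → (∀ b ∈ Gn, mp B ≤ b → vl b z = vl b (d : ℤ)) →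
      z.natAbs = md B * (wb (mp B) ^ (Eb (mp B) - t) * lw (mp B) fun b => vl b z) := by
    intro z hMz hz
    have h1 := fac_at hq hMz (show t ≤ vl (mp B) z by rw [hz _ hq le_rfl, ht])
    rw [hup z hz, hz _ hq le_rfl, ← ht, Nat.sub_self, pow_zero, one_mul, ← hDd] at h1
    exact h1
  obtain ⟨m, hm⟩ : ∃ m, m = wb (mp B) ^ (Eb (mp B) - t) * lw (mp B) fun b => vl b c := ⟨_, rfl⟩
  obtain ⟨m', hm'⟩ : ∃ m', m' = wb (mp B) ^ (Eb (mp B) - t) * lw (mp B) fun b => vl b c' :=
    ⟨_, rfl⟩
  obtain ⟨u, hu⟩ : ∃ u, u = wb (mp B) ^ (Eb (mp B) - t) * lw (mp B) fun b => vl b (d : ℤ) :=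
    ⟨_, rfl⟩
  have fc : c.natAbs = md B * m := by rw [hm]; exact hfac c hM hv
  have fc' : c'.natAbs = md B * m' := by rw [hm']; exact hfac c' hM' hv'
  have fd : d = md B * u := by
    rw [hu]
    have := hfac (d : ℤ) hd fun b _ _ => rfl
    rwa [Int.natAbs_natCast] at this
  have hDpos : 0 < md B := md_pos ⟨c, (mem_lC.1 hc).1⟩ hq
  have hcop : IsCoprime ((nq (mp B) : ℕ) : ℤ) (u : ℤ) := by
    rw [Nat.isCoprime_iff_coprime, hu]
    exact cop_wlw hq _ _
  have hD' : ((md B : ℕ) : ℤ) ≠ 0 := by exact_mod_cast hDpos.ne'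
  have r1 : m * x = u * y := by
    have h1 : md B * (m * x) = md B * (u * y) := by
      calc md B * (m * x) = c.natAbs * x := by rw [fc]; ring
        _ = d * y := h
        _ = md B * (u * y) := by nth_rewrite 1 [fd]; ring
    exact Nat.eq_of_mul_eq_mul_left hDpos h1
  have r2 : m' * x' = u * y' := by
    have h1 : md B * (m' * x') = md B * (u * y') := by
      calc md B * (m' * x') = c'.natAbs * x' := by rw [fc']; ring
        _ = d * y' := h'
        _ = md B * (u * y') := by nth_rewrite 1 [fd]; ring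
    exact Nat.eq_of_mul_eq_mul_left hDpos h1
  -- the sign
  obtain ⟨σ, hσ, hcσ, hcσ'⟩ : ∃ σ : ℤ, (σ = 1 ∨ σ = -1) ∧ c = σ * c.natAbs ∧
      c' = σ * c'.natAbs := by
    by_cases hp : 0 < c
    · refine ⟨1, Or.inl rfl, ?_, ?_⟩
      · rw [one_mul, Int.natAbs_of_nonneg hp.le]
      · rw [one_mul, Int.natAbs_of_nonneg (hs.1 hp).le]
    · refine ⟨-1, Or.inr rfl, ?_, ?_⟩
      · push Not at hp
        rw [Int.ofNat_natAbs_of_nonpos hp]; ring
      · have hp' : ¬ 0 < c' := fun h => hp (hs.2 h)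
        push Not at hp'
        rw [Int.ofNat_natAbs_of_nonpos hp']; ring
  have e1 : c = ((md B : ℕ) : ℤ) * (σ * m) := by
    rw [hcσ, fc]
    push_cast; ring
  have e2 : c' = ((md B : ℕ) : ℤ) * (σ * m') := by
    rw [hcσ', fc']
    push_cast; ring
  unfold pz ps at hps
  rw [e1, e2, Int.mul_ediv_cancel_left _ hD', Int.mul_ediv_cancel_left _ hD',
    ← sub_eq_zero, ← Int.cast_sub, ZMod.intCast_zmod_eq_zero_iff_dvd] at hps
  have h4 : ((nq (mp B) : ℕ) : ℤ) ∣ (m : ℤ) - m' := by
    rcases hσ with rfl | rfl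
    · rwa [one_mul, one_mul] at hps
    · have e3 : (-1 : ℤ) * ↑m - -1 * ↑m' = -((m : ℤ) - m') := by ring
      rw [e3, dvd_neg] at hps
      exact hps
  have h5 : ((nq (mp B) : ℕ) : ℤ) ∣ (u : ℤ) * ((y : ℤ) * x' - y' * x) := by
    have r1' : (m : ℤ) * x = u * y := by exact_mod_cast r1
    have r2' : (m' : ℤ) * x' = u * y' := by exact_mod_cast r2
    have e3 : (u : ℤ) * ((y : ℤ) * x' - y' * x) = ((m : ℤ) - m') * (x * x') := by
      linear_combination (-(x' : ℤ)) * r1' + (x : ℤ) * r2'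
    rw [e3]
    exact h4.mul_right _
  exact hcop.dvd_of_dvd_mul_left h5

end Pool.Agent.Helper51.NQ
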