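import Pool.Agent.Helper51.NQ.Inj

/-!
The counting inequality.
-/

set_option autoImplicit false

namespace Pool.Agent.Helper51.NQ

open Finset
open scoped Classical

variable [Sys]

/-- the `j`-th block of length `W` of the path of `c` -/
noncomputable def blk (P : Par) (A : Finset ℤ) (W j : ℕ) (c : ℤ) : List (Finset ℤ) :=
  ((bl P A c).drop (j * W)).take W

/-- the generator at the end of the `j`-th block -/
noncomputable def yp (P : Par) (A : Finset ℤ) (W j : ℕ) (c : ℤ) : ℕ :=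
  mp ((bl P A c).getD ((j + 1) * W - 1) ∅)

theorem blk_eq (P : Par) (A : Finset ℤ) (W j : ℕ) (c : ℤ) :
    blk P A W j c = ((bl P A c).take ((j + 1) * W)).drop (j * W) := by
  unfold blk
  rw [List.drop_take]
  congr 1
  rw [Nat.add_mul, one_mul]
  omega

omit [Sys] in
theorem getD_of_take {α : Type*} {l l' : List α} {n i : ℕ} (h : l.take n = l'.take n)
    (hi : i < n) (d : α) : l.getD i d = l'.getD i d := by
  rw [List.getD_eq_getElem?_getD, List.getD_eq_getElem?_getD,
    ← List.getElem?_take_of_lt hi, h, List.getElem?_take_of_lt hi]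

/-- the data of a pair in the fibre -/
theorem fibre_take (P : Par) (A : Finset ℤ) (hA : A.Nonempty) (h0 : ∀ c ∈ A, Mem c)
    (W j : ℕ) (hW : 1 ≤ W) {c c' : ℤ} (hc : c ∈ A) (hc' : c' ∈ A)
    (hl : (j + 1) * W ≤ (bl P A c).length)
    {T T' : Finset ℕ} (hT : ∀ r ∈ T, r < yp P A W j c)
    (hT' : ∀ r ∈ T', r < yp P A W j c') (hdd : dd c T = dd c' T')
    (hyy : yp P A W j c' ≤ yp P A W j c) :
    (bl P A c').take ((j + 1) * W) = (bl P A c).take ((j + 1) * W) := by
  have hpos : 1 ≤ (j + 1) * W := Nat.one_le_iff_ne_zero.2 (by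
    apply Nat.mul_ne_zero <;> omega)
  have h1 := path_eq P A hA h0 c hc c' hc' ((j + 1) * W - 1) (yp P A W j c) ?_ (by omega)
    (le_refl _)
  · rwa [Nat.sub_add_cancel hpos] at h1
  · intro q hq hqy
    rw [← vl_dd_of_lt (h0 c hc) hT hq hqy, hdd,
      vl_dd_of_lt (h0 c' hc') hT' hq (hyy.trans hqy)]

theorem nq_cop {b b' : ℕ} (hb : b ∈ Gn) (hb' : b' ∈ Gn) (hne : b ≠ b') :
    Nat.Coprime (nq b) (nq b') := by
  rcases lt_or_gt_of_ne hne with h | h
  · exact ((Sys.cop b' hb' b hb h).1.coprime_dvd_right (Sys.dvd b hb)).symm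
  · exact (Sys.cop b hb b' hb' h).1.coprime_dvd_right (Sys.dvd b' hb')

/-- equal elements with equal sub-products -/
theorem dd_inj {c c' : ℤ} (hM : Mem c) (hM' : Mem c') (hcc : c.natAbs = c'.natAbs)
    {T T' : Finset ℕ} (hT : T ⊆ sp c) (hT' : T' ⊆ sp c') (hdd : dd c T = dd c' T') : T = T' := by
  have hv : ∀ b ∈ Gn, vl b c = vl b c' := by
    intro b hb
    exact vl_eq hM'.le (hcc.trans hM'.spec) hb
  have hi : ∀ b ∈ Gn, vl b c - ind T b = vl b c' - ind T' b := by
    intro b hb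
    rw [← vl_dd hM T hb, hdd, vl_dd hM' T' hb]
  ext b
  constructor
  · intro hb
    obtain ⟨h1, h2⟩ := Finset.mem_filter.1 (hT hb)
    have h3 := hi b h1
    have h4 := hv b h1
    unfold ind at h3
    rw [if_pos hb] at h3
    by_contra hcon
    rw [if_neg hcon] at h3
    omega
  · intro hb
    obtain ⟨h1, h2⟩ := Finset.mem_filter.1 (hT' hb)
    have h3 := hi b h1
    have h4 := hv b h1
    unfold ind at h3
    rw [if_pos hb] at h3
    by_contra hcon
    rw [if_neg hcon] at h3
    omega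

omit [Sys] in
theorem prod_le_mul_pow {T T' S : Finset ℕ} (f f' : ℕ → ℕ) {s : ℕ} (hS : T ∪ T' = S)
    (hTs : T.card = s) (hTs' : T'.card = s) :
    (∏ r ∈ T, f r) * ∏ r ∈ T', f' r ≤ (S.sup f * S.sup f') ^ s := by
  rw [mul_pow]
  apply Nat.mul_le_mul
  · rw [← hTs]
    refine Finset.prod_le_pow_card _ _ _ fun r hr => ?_
    exact Finset.le_sup (f := f) (by rw [← hS]; exact Finset.mem_union_left _ hr)
  · rw [← hTs']
    refine Finset.prod_le_pow_card _ _ _ fun r hr => ?_
    exact Finset.le_sup (f := f') (by rw [← hS]; exact Finset.mem_union_right _ hr)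

/-- the size condition -/
def Big (K : ℕ) : Prop :=
  ∀ b ∈ Gn, ∀ b' ∈ Gn, ∀ b'' ∈ Gn, b' ≤ b → b'' ≤ b → ub b' * wb b'' ≤ nq b ^ K

theorem fibre_inj (K : ℕ) (hK : 1 ≤ K) (hbig : Big K)
    (P : Par) (A : Finset ℤ) (hA : A.Nonempty) (h0 : ∀ c ∈ A, Mem c)
    (W j s : ℕ) (hW : 1 ≤ W) {c c' : ℤ} (hc : c ∈ A) (hc' : c' ∈ A)
    (hl : (j + 1) * W ≤ (bl P A c).length)
    (hs : K * s ≤ hits P (blk P A W j c) c)
    {T T' : Finset ℕ} (hTsp : T ⊆ sp c) (hTsp' : T' ⊆ sp c') (hT : ∀ r ∈ T, r < yp P A W j c)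
    (hT' : ∀ r ∈ T', r < yp P A W j c')
    (hTs : T.card = s) (hTs' : T'.card = s) (hdd : dd c T = dd c' T')
    (htake : (bl P A c').take ((j + 1) * W) = (bl P A c).take ((j + 1) * W))
    (hlab : ∀ i < W, lab P ((blk P A W j c).getD i ∅) c = lab P ((blk P A W j c').getD i ∅) c')
    (hsgn : 0 < c ↔ 0 < c') : c = c' ∧ T = T' := by
  have hpos : 1 ≤ (j + 1) * W := Nat.one_le_iff_ne_zero.2 (by
    apply Nat.mul_ne_zero <;> omega)
  have hWle : j * W + W = (j + 1) * W := by ring
  have hblk : blk P A W j c' = blk P A W j c := by rw [blk_eq, blk_eq, htake]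
  have hyp : yp P A W j c' = yp P A W j c := by
    unfold yp
    rw [getD_of_take htake (by omega)]
  rw [hyp] at hT'
  have hTG : T ⊆ Gn := fun r hr => (Finset.mem_filter.1 (hTsp hr)).1
  have hTG' : T' ⊆ Gn := fun r hr => (Finset.mem_filter.1 (hTsp' hr)).1
  have hM := h0 c hc
  have hM' := h0 c' hc'
  have h := dd_fac hM hTsp
  have h' := dd_fac hM' hTsp'
  rw [← hdd] at h'
  set y := yp P A W j c with hy
  set l := bl P A c with hldef
  have hmono := path_mono P A hA h0 c hc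
  rw [← hldef] at hmono
  -- the generator at the end
  have hilt : (j + 1) * W - 1 < l.length := by omega
  have hendmem : l.getD ((j + 1) * W - 1) ∅ ∈ l := by
    rw [List.getD_eq_getElem _ _ hilt]
    exact List.getElem_mem hilt
  have hprime : ∀ B ∈ l, mp B ∈ Gn := by
    intro B hB
    obtain ⟨h1, _, _, h2⟩ := mem_bl P A hA h0 c hc B hB
    exact ((mem_ncp fun a ha => h0 a (h1 ha)).1 (mp_mem h2)).1
  have hyB : ∀ B ∈ blk P A W j c, B ∈ l ∧ y ≤ mp B := by
    intro B hB
    rw [blk_eq] at hB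
    have h1 := List.mem_of_mem_drop hB
    refine ⟨List.mem_of_mem_take h1, ?_⟩
    rw [← hldef] at h1
    obtain ⟨k, hk, hkB⟩ := List.mem_take_iff_getElem.1 h1
    rw [lt_min_iff] at hk
    rcases Nat.lt_or_ge k ((j + 1) * W - 1) with h2 | h2
    · have h3 := List.pairwise_iff_getElem.1 hmono k ((j + 1) * W - 1) hk.2 hilt h2
      rw [hkB] at h3
      show mp (l.getD ((j + 1) * W - 1) ∅) ≤ mp B
      rw [List.getD_eq_getElem _ _ hilt]
      exact h3.1
    · have h3 : k = (j + 1) * W - 1 := by omega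
      show mp (l.getD ((j + 1) * W - 1) ∅) ≤ mp B
      rw [List.getD_eq_getElem _ _ hilt, ← hkB]
      subst h3
      exact le_refl _
  have hblklen : (blk P A W j c).length = W := by
    unfold blk
    rw [List.length_take, List.length_drop, ← hldef]
    omega
  have hlabB : ∀ B ∈ blk P A W j c, lab P B c = lab P B c' := by
    intro B hB
    obtain ⟨i, hi, hiB⟩ := List.mem_iff_getElem.1 hB
    have h1 := hlab i (by omega)
    rw [hblk, List.getD_eq_getElem _ _ hi, hiB] at h1
    exact h1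
  -- the generators of the hits
  set hl' : List ℕ := ((blk P A W j c).filter fun B => decide (Ht P B c)).map mp with hhl'
  have hnodup : hl'.Nodup := by
    rw [hhl']
    unfold List.Nodup
    rw [List.pairwise_map, List.pairwise_filter]
    have hsub : (blk P A W j c).Sublist l := by
      unfold blk
      exact (List.take_sublist _ _).trans (List.drop_sublist _ _)
    refine (hmono.sublist hsub).imp ?_
    intro B B' hBB' hB _ heq
    have h1 := hBB'.2 (of_decide_eq_true hB).1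
    rw [heq] at h1
    exact lt_irrefl _ h1
  set HP : Finset ℕ := hl'.toFinset with hHP
  have hHPcard : HP.card = hits P (blk P A W j c) c := by
    rw [hHP, List.toFinset_card_of_nodup hnodup, hhl', List.length_map]
    unfold hits
    rw [List.countP_eq_length_filter]
  have hHPmem : ∀ q ∈ HP, q ∈ Gn ∧ y ≤ q ∧
      (nq q : ℤ) ∣ (pu T : ℤ) * pl T' - pu T' * pl T := by
    intro q hq
    rw [hHP, List.mem_toFinset, hhl', List.mem_map] at hq
    obtain ⟨B, hB, rfl⟩ := hq
    rw [List.mem_filter] at hB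
    obtain ⟨hBb, hBH⟩ := hB
    have hH : Ht P B c := of_decide_eq_true hBH
    obtain ⟨hBl, hyB'⟩ := hyB B hBb
    have hpr := hprime B hBl
    obtain ⟨hH', hps⟩ := lab_inj P hpr (hlabB B hBb) hH
    refine ⟨hpr, hyB', ?_⟩
    exact hit_dvd hpr hH.1 h h' hsgn hM hM' (dd_mem hM T)
      (fun b hb hBb' => (vl_dd_of_lt hM hT hb (hyB'.trans hBb')).symm)
      (fun b hb hBb' => by rw [hdd]; exact (vl_dd_of_lt hM' hT' hb (hyB'.trans hBb')).symm) hps
  -- the products agree
  have hprod : pu T * pl T' = pu T' * pl T := by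
    by_contra hne
    have h1 : (∏ q ∈ HP, nq q) ∣ ((pu T : ℤ) * pl T' - pu T' * pl T).natAbs := by
      have h2 : (∏ q ∈ HP, ((nq q : ℕ) : ℤ)) ∣ ((pu T : ℤ) * pl T' - pu T' * pl T) := by
        apply Finset.prod_dvd_of_coprime
        · intro q hq q' hq' hne'
          have hq1 := (hHPmem q (Finset.mem_coe.1 hq)).1
          have hq2 := (hHPmem q' (Finset.mem_coe.1 hq')).1
          exact Nat.isCoprime_iff_coprime.2 (nq_cop hq1 hq2 hne')
        · intro q hq
          exact (hHPmem q hq).2.2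
      rw [← Nat.cast_prod] at h2
      exact Int.natCast_dvd.1 h2
    -- the largest generators
    obtain ⟨S, hS⟩ : ∃ S, T ∪ T' = S := ⟨_, rfl⟩
    have hSne : S.Nonempty := by
      rw [Finset.nonempty_iff_ne_empty]
      rintro rfl
      obtain ⟨e1, e2⟩ := Finset.union_eq_empty.1 hS
      rw [e1, e2] at hne
      exact hne rfl
    have hSG : ∀ r ∈ S, r ∈ Gn ∧ r < y := by
      intro r hr
      rw [← hS, Finset.mem_union] at hr
      rcases hr with hr | hr
      · exact ⟨hTG hr, hT r hr⟩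
      · exact ⟨hTG' hr, hT' r hr⟩
    obtain ⟨r₁, hr₁, e₁⟩ := Finset.exists_mem_eq_sup S hSne ub
    obtain ⟨r₂, hr₂, e₂⟩ := Finset.exists_mem_eq_sup S hSne wb
    have hY1 : 1 ≤ S.sup ub * S.sup wb := by
      rw [e₁, e₂]
      exact Nat.mul_pos (Sys.upos _ (hSG r₁ hr₁).1) (Sys.wpos _ (hSG r₂ hr₂).1)
    have hYH : ∀ q ∈ HP, S.sup ub * S.sup wb ≤ nq q ^ K := by
      intro q hq
      obtain ⟨hqG, hyq, _⟩ := hHPmem q hq
      rw [e₁, e₂]
      exact hbig q hqG r₁ (hSG r₁ hr₁).1 r₂ (hSG r₂ hr₂).1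
        ((hSG r₁ hr₁).2.le.trans hyq) ((hSG r₂ hr₂).2.le.trans hyq)
    set Y := S.sup ub * S.sup wb with hY
    have h2 : Y ^ s ≤ ∏ q ∈ HP, nq q := by
      have h3 : (Y ^ s) ^ K ≤ (∏ q ∈ HP, nq q) ^ K := by
        calc (Y ^ s) ^ K = Y ^ (K * s) := by rw [← pow_mul, mul_comm]
          _ ≤ Y ^ HP.card := Nat.pow_le_pow_right hY1 (by rw [hHPcard]; exact hs)
          _ ≤ ∏ q ∈ HP, nq q ^ K := Finset.pow_card_le_prod _ _ _ fun q hq => hYH q hq
          _ = _ := Finset.prod_pow _ _ _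
      exact (Nat.pow_le_pow_iff_left (by omega)).1 h3
    have h3 : pu T * pl T' ≤ Y ^ s := prod_le_mul_pow ub wb hS hTs hTs'
    have h4 : pu T' * pl T ≤ Y ^ s := by
      rw [Finset.union_comm] at hS
      exact prod_le_mul_pow ub wb hS hTs' hTs
    have h5 : 0 < pu T * pl T' := Nat.mul_pos (pu_pos hTG) (pl_pos hTG')
    have h6 : 0 < pu T' * pl T := Nat.mul_pos (pu_pos hTG') (pl_pos hTG)
    have h7 : ((pu T : ℤ) * pl T' - pu T' * pl T).natAbs ≠ 0 := by
      intro h8
      apply hne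
      have h9 : (pu T : ℤ) * pl T' - pu T' * pl T = 0 := Int.natAbs_eq_zero.1 h8
      have h10 : ((pu T * pl T' : ℕ) : ℤ) = ((pu T' * pl T : ℕ) : ℤ) := by
        push_cast
        linarith
      exact_mod_cast h10
    have h8 := Nat.le_of_dvd (Nat.pos_of_ne_zero h7) h1
    have h9 : ((pu T : ℤ) * pl T' - pu T' * pl T).natAbs < Y ^ s := by
      have e3 : (pu T : ℤ) * pl T' - pu T' * pl T =
          ((pu T * pl T' : ℕ) : ℤ) - ((pu T' * pl T : ℕ) : ℤ) := by push_cast; ring
      rw [e3]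
      omega
    omega
  have hcc : c.natAbs = c'.natAbs := by
    have h1 : 0 < pl T * pl T' := Nat.mul_pos (pl_pos hTG) (pl_pos hTG')
    apply Nat.eq_of_mul_eq_mul_right h1
    calc c.natAbs * (pl T * pl T') = (c.natAbs * pl T) * pl T' := by ring
      _ = dd c T * (pu T * pl T') := by rw [h]; ring
      _ = dd c T * (pu T' * pl T) := by rw [hprod]
      _ = (c'.natAbs * pl T') * pl T := by rw [h']; ring
      _ = c'.natAbs * (pl T * pl T') := by ring
  constructor
  · rcases Int.natAbs_eq_natAbs_iff.1 hcc with h1 | h1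
    · exact h1
    · exfalso
      have h2 := hM'.ne_zero
      omega
  · exact dd_inj hM hM' hcc hTsp hTsp' hdd

/-- the good elements for the `j`-th block -/
noncomputable def Gd (P : Par) (A : Finset ℤ) (W j s' N₀ : ℕ) : Finset ℤ :=
  A.filter fun c => (j + 1) * W ≤ (bl P A c).length ∧ s' ≤ hits P (blk P A W j c) c ∧
    N₀ ≤ om c (yp P A W j c)

open Classical in
/-- the sub-products of `a` -/
noncomputable def dvs (a : ℤ) : Finset ℕ :=
  (Gn.pi fun b => Finset.range (vl b a + 1)).image fun f =>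
    pr fun b => if h : b ∈ Gn then f b h else 0

theorem mem_dvs {a : ℤ} {d : ℕ} :
    d ∈ dvs a ↔ ∃ e : ℕ → ℕ, (∀ b ∈ Gn, e b ≤ vl b a) ∧ d = pr e := by
  unfold dvs
  rw [Finset.mem_image]
  constructor
  · rintro ⟨f, hf, rfl⟩
    rw [Finset.mem_pi] at hf
    refine ⟨fun b => if h : b ∈ Gn then f b h else 0, ?_, rfl⟩
    intro b hb
    show (if h : b ∈ Gn then f b h else 0) ≤ vl b a
    rw [dif_pos hb]
    have := Finset.mem_range.1 (hf b hb)
    omega
  · rintro ⟨e, he, rfl⟩
    refine ⟨fun b _ => e b, ?_, ?_⟩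
    · rw [Finset.mem_pi]
      intro b hb
      rw [Finset.mem_range]
      have := he b hb
      omega
    · unfold pr
      refine Finset.prod_congr rfl fun b hb => ?_
      show fa b (if h : b ∈ Gn then e b else 0) = fa b (e b)
      rw [dif_pos hb]

/-- the sub-products of the elements of `A` -/
noncomputable def Dv (A : Finset ℤ) : Finset ℕ := A.biUnion dvs

theorem inj_count (K : ℕ) (hK : 1 ≤ K) (hbig : Big K)
    (P : Par) (A : Finset ℤ) (hA : A.Nonempty) (h0 : ∀ c ∈ A, Mem c)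
    (L : ℕ) (ht : 0 < P.t) (hL : 1 ≤ P.t * L) (W j s N₀ : ℕ) (hW : 1 ≤ W) :
    (Gd P A W j (K * s) N₀).card * N₀.choose s ≤ (Dv A).card * ((L + 1) ^ W * 2) := by
  set pf : ℤ → Finset ℕ := fun c => (sp c).filter fun q => q < yp P A W j c
    with hpf
  set X : Finset (Σ _ : ℤ, Finset ℕ) :=
    (Gd P A W j (K * s) N₀).sigma fun c => (pf c).powersetCard s with hX
  set D := Dv A with hD
  have hXcard : (Gd P A W j (K * s) N₀).card * N₀.choose s ≤ X.card := by
    rw [hX, Finset.card_sigma, ← smul_eq_mul, ← Finset.sum_const]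
    refine Finset.sum_le_sum fun c hc => ?_
    rw [Finset.card_powersetCard]
    exact Nat.choose_le_choose s (Finset.mem_filter.1 hc).2.2.2
  set Φ : (Σ _ : ℤ, Finset ℕ) → ℕ × (Fin W → ℕ) × Bool := fun z =>
    (dd z.1 z.2, fun i => lab P ((blk P A W j z.1).getD i ∅) z.1,
      decide (0 < z.1)) with hΦ
  set Y : Finset (ℕ × (Fin W → ℕ) × Bool) :=
    D ×ˢ ((Fintype.piFinset fun _ : Fin W => Finset.range (L + 1)) ×ˢ Finset.univ) with hY
  have hYcard : Y.card = D.card * ((L + 1) ^ W * 2) := by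
    rw [hY, Finset.card_product, Finset.card_product, Fintype.card_piFinset]
    simp
  rw [← hYcard]
  refine hXcard.trans ?_
  have hmemX : ∀ z ∈ X, z.1 ∈ A ∧ (j + 1) * W ≤ (bl P A z.1).length ∧
      K * s ≤ hits P (blk P A W j z.1) z.1 ∧ z.2 ⊆ sp z.1 ∧ (∀ r ∈ z.2, r < yp P A W j z.1) ∧
      z.2.card = s := by
    rintro ⟨c, T⟩ hz
    rw [hX, Finset.mem_sigma] at hz
    obtain ⟨hzG, hzT⟩ := hz
    obtain ⟨hcA, h1, h2, _⟩ := Finset.mem_filter.1 hzG
    obtain ⟨hT1, hT2⟩ := Finset.mem_powersetCard.1 hzT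
    exact ⟨hcA, h1, h2, fun r hr => (Finset.mem_filter.1 (hT1 hr)).1,
      fun r hr => (Finset.mem_filter.1 (hT1 hr)).2, hT2⟩
  apply Finset.card_le_card_of_injOn Φ
  · intro z hz
    obtain ⟨hcA, h1, h2, hTsp, hT, hTs⟩ := hmemX z (Finset.mem_coe.1 hz)
    rw [Finset.mem_coe, hY, Finset.mem_product, Finset.mem_product]
    refine ⟨?_, ?_, Finset.mem_univ _⟩
    · show dd z.1 z.2 ∈ D
      rw [hD]
      unfold Dv
      rw [Finset.mem_biUnion]
      exact ⟨z.1, hcA, mem_dvs.2 ⟨_, fun b _ => Nat.sub_le _ _, rfl⟩⟩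
    · rw [Fintype.mem_piFinset]
      intro i
      show lab P ((blk P A W j z.1).getD i ∅) z.1 ∈ Finset.range (L + 1)
      rw [Finset.mem_range]
      have hlen : (blk P A W j z.1).length = W := by
        unfold blk
        rw [List.length_take, List.length_drop]
        have : j * W + W = (j + 1) * W := by ring
        omega
      have hi : (i : ℕ) < (blk P A W j z.1).length := by rw [hlen]; exact i.2
      rw [List.getD_eq_getElem _ _ hi]
      have hmem : (blk P A W j z.1)[(i : ℕ)] ∈ bl P A z.1 := by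
        have h3 := List.getElem_mem hi
        unfold blk at h3
        exact List.mem_of_mem_drop (List.mem_of_mem_take h3)
      obtain ⟨hB1, _, _, hB2⟩ := mem_bl P A hA h0 z.1 hcA _ hmem
      have hBpr := ((mem_ncp fun a ha => h0 a (hB1 ha)).1 (mp_mem hB2)).1
      have h3 := lab_le P (blk P A W j z.1)[(i : ℕ)] z.1
      have h4 := card_HS P _ hBpr (lC_nonempty (nonempty_of_ncp hB2))
      have h5 : (HS P (blk P A W j z.1)[(i : ℕ)]).card ≤ L := by
        have : P.t * (HS P (blk P A W j z.1)[(i : ℕ)]).card ≤ P.t * L := h4.trans hL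
        exact_mod_cast le_of_mul_le_mul_left this ht
      omega
  · intro z hz z' hz' hzz'
    obtain ⟨hcA, h1, h2, hTsp, hT, hTs⟩ := hmemX z (Finset.mem_coe.1 hz)
    obtain ⟨hcA', h1', h2', hTsp', hT', hTs'⟩ := hmemX z' (Finset.mem_coe.1 hz')
    simp only [hΦ, Prod.mk.injEq] at hzz'
    obtain ⟨hd, hlab, hsgn⟩ := hzz'
    have hsgn' : 0 < z.1 ↔ 0 < z'.1 := by simpa using hsgn
    have hlab' : ∀ i < W, lab P ((blk P A W j z.1).getD i ∅) z.1 =
        lab P ((blk P A W j z'.1).getD i ∅) z'.1 := by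
      intro i hi
      exact congrFun hlab ⟨i, hi⟩
    have htake : (bl P A z'.1).take ((j + 1) * W) = (bl P A z.1).take ((j + 1) * W) := by
      rcases le_total (yp P A W j z'.1) (yp P A W j z.1) with hyy | hyy
      · exact fibre_take P A hA h0 W j hW hcA hcA' h1 hT hT' hd hyy
      · exact (fibre_take P A hA h0 W j hW hcA' hcA h1' hT' hT hd.symm hyy).symm
    obtain ⟨e1, e2⟩ := fibre_inj K hK hbig P A hA h0 W j s hW hcA hcA' h1 h2 hTsp hTsp' hT hT'
      hTs hTs' hd htake hlab' hsgn'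
    obtain ⟨c, T⟩ := z
    obtain ⟨c', T'⟩ := z'
    change c = c' at e1
    change T = T' at e2
    rw [e1, e2]

omit [Sys] in
theorem pow_le_choose (M : ℕ) (hM : 1 ≤ M) : ∀ s : ℕ, M ^ s ≤ (M * s).choose s := by
  intro s
  induction s with
  | zero => simp
  | succ s ih =>
    have h1 : M * (s + 1) = (M * s + M - 1) + 1 := by
      have : M * (s + 1) = M * s + M := by ring
      omega
    have h2 := Nat.add_one_mul_choose_eq (M * s + M - 1) s
    rw [← h1] at h2
    have h3 : (M * s).choose s ≤ (M * s + M - 1).choose s :=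
      Nat.choose_le_choose s (by omega)
    have h4 : M * (M * s + M - 1).choose s * (s + 1) =
        (M * (s + 1)).choose (s + 1) * (s + 1) := by
      rw [← h2]; ring
    have h5 : M * (M * s + M - 1).choose s = (M * (s + 1)).choose (s + 1) :=
      Nat.eq_of_mul_eq_mul_right (Nat.succ_pos s) h4
    rw [← h5, pow_succ, mul_comm]
    exact Nat.mul_le_mul_left M (ih.trans h3)

end Pool.Agent.Helper51.NQ
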