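import Pool.Agent.Helper51.NQ.Rat

/-!
Sums along dense sets of pairs.
-/

set_option autoImplicit false

namespace Pool.Agent.Helper51.NQ

open Finset
open H633R5.FS (N N_nonneg N_le N_ge sum_N_mul Lz Lz_eq g Lz_le g_nonneg g_le F PS PS_nonempty)
open NP (g_mix g_affine g_dil sum_log_N)

theorem card_fibre_le (A B : Finset ℤ) (S : Finset (ℤ × ℤ)) (hS : S ⊆ A ×ˢ B) (z : ℤ) :
    ((S.filter fun p => p.1 + p.2 = z).card : ℝ) ≤ N A B z := by
  classical
  have h1 : (S.filter fun p => p.1 + p.2 = z).card ≤ (A.filter fun a => z - a ∈ B).card := by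
    apply Finset.card_le_card_of_injOn (fun p => p.1)
    · intro p hp
      obtain ⟨h1, h2⟩ := mem_filter.1 (Finset.mem_coe.1 hp)
      obtain ⟨h3, h4⟩ := mem_product.1 (hS h1)
      rw [Finset.mem_coe, mem_filter]
      refine ⟨h3, ?_⟩
      have : z - p.1 = p.2 := by linarith
      rw [this]
      exact h4
    · intro p hp p' hp' hpp
      obtain ⟨_, h2⟩ := mem_filter.1 (Finset.mem_coe.1 hp)
      obtain ⟨_, h2'⟩ := mem_filter.1 (Finset.mem_coe.1 hp')
      have hpp' : p.1 = p'.1 := hpp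
      have : p.2 = p'.2 := by linarith
      exact Prod.ext hpp' this
  have h2 : N A B z = ((A.filter fun a => z - a ∈ B).card : ℝ) := by
    unfold N
    rw [Finset.card_filter]
    push_cast
    rfl
  rw [h2]
  exact_mod_cast h1

theorem dense_pairs (A B : Finset ℤ) (hA : A.Nonempty) (hB : B.Nonempty) (S : Finset (ℤ × ℤ))
    (hS : S ⊆ A ×ˢ B) (δ M : ℝ) (hδ : 0 < δ) (hM : 0 < M)
    (hSc : δ * (A.card * B.card) ≤ S.card)
    (hg : ∑ a ∈ A, ∑ b ∈ B, Real.log (N A B (a + b)) ≤ A.card * B.card * M) :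
    δ / 2 * (A.card * B.card) * Real.exp (-(2 / δ * M)) ≤
      ((S.image fun p => p.1 + p.2).card : ℝ) := by
  classical
  have cA : (0 : ℝ) < A.card := by exact_mod_cast hA.card_pos
  have cB : (0 : ℝ) < B.card := by exact_mod_cast hB.card_pos
  set T : ℝ := Real.exp (2 / δ * M) with hT
  have hT0 : 0 < T := Real.exp_pos _
  set G := S.filter fun p => N A B (p.1 + p.2) ≤ T with hG
  set Bd := (A ×ˢ B).filter fun p => ¬ N A B (p.1 + p.2) ≤ T with hBd
  have hN1 : ∀ p ∈ A ×ˢ B, 1 ≤ N A B (p.1 + p.2) := fun p hp =>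
    N_ge (mem_product.1 hp).1 (mem_product.1 hp).2
  -- the bad pairs
  have hbad : (Bd.card : ℝ) ≤ δ / 2 * (A.card * B.card) := by
    have h1 : (Bd.card : ℝ) * (2 / δ * M) ≤ A.card * B.card * M := by
      refine le_trans ?_ hg
      rw [← Finset.sum_product']
      calc (Bd.card : ℝ) * (2 / δ * M) = ∑ _p ∈ Bd, (2 / δ * M) := by
            rw [Finset.sum_const, nsmul_eq_mul]
        _ ≤ ∑ p ∈ Bd, Real.log (N A B (p.1 + p.2)) := by
            refine Finset.sum_le_sum fun p hp => ?_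
            obtain ⟨h1, h2⟩ := mem_filter.1 hp
            push Not at h2
            rw [← Real.log_exp (2 / δ * M)]
            exact Real.log_le_log (Real.exp_pos _) h2.le
        _ ≤ ∑ p ∈ A ×ˢ B, Real.log (N A B (p.1 + p.2)) :=
            Finset.sum_le_sum_of_subset_of_nonneg (Finset.filter_subset _ _)
              fun p hp _ => Real.log_nonneg (hN1 p hp)
    have h2 : (Bd.card : ℝ) * (2 / δ) ≤ A.card * B.card := by
      have h3 : (Bd.card : ℝ) * (2 / δ) * M ≤ A.card * B.card * M := by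
        calc (Bd.card : ℝ) * (2 / δ) * M = Bd.card * (2 / δ * M) := by ring
          _ ≤ _ := h1
      exact le_of_mul_le_mul_right h3 hM
    have h3 : (Bd.card : ℝ) = δ / 2 * (Bd.card * (2 / δ)) := by
      field_simp
    rw [h3]
    exact mul_le_mul_of_nonneg_left h2 (by positivity)
  -- the good pairs
  have hgood : δ / 2 * (A.card * B.card) ≤ (G.card : ℝ) := by
    have h1 : S.card ≤ G.card + Bd.card := by
      have h2 : S ⊆ G ∪ Bd := by
        intro p hp
        rw [Finset.mem_union]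
        by_cases h : N A B (p.1 + p.2) ≤ T
        · exact Or.inl (mem_filter.2 ⟨hp, h⟩)
        · exact Or.inr (mem_filter.2 ⟨hS hp, h⟩)
      exact (Finset.card_le_card h2).trans (Finset.card_union_le _ _)
    have h2 : (S.card : ℝ) ≤ G.card + Bd.card := by exact_mod_cast h1
    linarith
  have hGle : (G.card : ℝ) ≤ T * ((S.image fun p => p.1 + p.2).card : ℝ) := by
    have h1 : (G.card : ℝ) = ∑ z ∈ G.image (fun p => p.1 + p.2),
        ((G.filter fun p => p.1 + p.2 = z).card : ℝ) := by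
      exact_mod_cast Finset.card_eq_sum_card_image (fun p : ℤ × ℤ => p.1 + p.2) G
    have h2 : ∀ z ∈ G.image (fun p => p.1 + p.2),
        ((G.filter fun p => p.1 + p.2 = z).card : ℝ) ≤ T := by
      intro z hz
      obtain ⟨p, hp, rfl⟩ := mem_image.1 hz
      exact (card_fibre_le A B G ((Finset.filter_subset _ _).trans hS) _).trans (mem_filter.1 hp).2
    rw [h1]
    calc ∑ z ∈ G.image (fun p => p.1 + p.2), ((G.filter fun p => p.1 + p.2 = z).card : ℝ) ≤
        ∑ _z ∈ G.image (fun p => p.1 + p.2), T := Finset.sum_le_sum h2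
      _ = (G.image fun p => p.1 + p.2).card * T := by rw [Finset.sum_const, nsmul_eq_mul]
      _ ≤ T * ((S.image fun p => p.1 + p.2).card : ℝ) := by
          rw [mul_comm]
          refine mul_le_mul_of_nonneg_left ?_ hT0.le
          exact_mod_cast Finset.card_le_card (Finset.image_subset_image (Finset.filter_subset _ _))
  rw [Real.exp_neg, ← div_eq_mul_inv, div_le_iff₀ (Real.exp_pos _), mul_comm _ (Real.exp _)]
  exact hgood.trans hGle

theorem Structured.mono {κ : ℕ} {M R R' : ℝ} {P : Set ℤ} (h : Structured κ M R P) (hR : R ≤ R') :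
    Structured κ M R' P := by
  obtain ⟨r, ρ, D, x, h1, h2, h3, h4, h5, h6⟩ := h
  refine ⟨r, ρ, D, x, h1, h2, h3, h4, fun K hK => (h5 K hK).trans ?_, h6⟩
  exact Real.rpow_le_rpow_of_exponent_le (by exact_mod_cast (by omega : 1 ≤ K)) hR

theorem final (κ : ℕ) (ε δ C : ℝ) (hε : 0 < ε) (hδ : 0 < δ) :
    ∃ η c : ℝ, 0 < η ∧ 0 < c ∧ ∀ A : Finset ℤ, A.Nonempty →
      ∀ (m : ℕ) (P : Fin m → Set ℤ), (m : ℝ) ≤ (A.card : ℝ) ^ η →
      (∀ j, Structured κ ((A.card : ℝ) ^ (1 + η)) (C * Real.log A.card) (P j)) →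
      (∀ a ∈ A, ∃ j, a ∈ P j) → ∀ B : Finset ℤ, B.Nonempty →
      ∀ S : Finset (ℤ × ℤ), S ⊆ A ×ˢ B → δ * (A.card * B.card) ≤ S.card →
        c * ((A.card : ℝ) * B.card) ^ (1 - ε) ≤ ((S.image fun p => p.1 + p.2).card : ℝ) := by
  obtain ⟨η, c₀, hη, hc₀, h⟩ := ent_union κ (δ * ε / 2) (max C 0) (by positivity)
    (le_max_right _ _)
  refine ⟨η, δ / 2 * Real.exp (-(2 / δ * (c₀ + 1))), hη, by positivity, ?_⟩
  intro A hA m P hm hP hAP B hB S hS hSc
  have cA : (0 : ℝ) < A.card := by exact_mod_cast hA.card_pos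
  have cB : (0 : ℝ) < B.card := by exact_mod_cast hB.card_pos
  have ha0 : 0 ≤ Real.log A.card := Real.log_natCast_nonneg _
  have hb0 : 0 ≤ Real.log B.card := Real.log_natCast_nonneg _
  have h1 := h A hA m P hm (fun j => (hP j).mono
    (mul_le_mul_of_nonneg_right (le_max_left _ _) ha0)) hAP B hB
  have h2 := sum_log_N A B hA hB
  set La := Real.log A.card with hLa
  set Lb := Real.log B.card with hLb
  have h3 : ∑ a ∈ A, ∑ b ∈ B, Real.log (N A B (a + b)) ≤
      A.card * B.card * (δ * ε / 2 * (La + Lb) + (c₀ + 1)) := by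
    rw [h2]
    exact mul_le_mul_of_nonneg_left (by linarith) (by positivity)
  have h4 := dense_pairs A B hA hB S hS δ (δ * ε / 2 * (La + Lb) + (c₀ + 1)) hδ (by positivity)
    hSc h3
  refine le_trans (le_of_eq ?_) h4
  have h5 : ((A.card : ℝ) * B.card) ^ (1 - ε) = A.card * B.card * Real.exp (-(ε * (La + Lb))) := by
    rw [Real.rpow_sub (by positivity), Real.rpow_one, div_eq_mul_inv]
    congr 1
    rw [Real.rpow_def_of_pos (by positivity), Real.log_mul cA.ne' cB.ne', ← Real.exp_neg]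
    congr 1
    ring
  have h6 : Real.exp (-(2 / δ * (δ * ε / 2 * (La + Lb) + (c₀ + 1)))) =
      Real.exp (-(ε * (La + Lb))) * Real.exp (-(2 / δ * (c₀ + 1))) := by
    rw [← Real.exp_add]
    congr 1
    field_simp
    ring
  rw [h5, h6]
  ring

end Pool.Agent.Helper51.NQ
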