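import Pool.Agent.Helper51.NQ.Ent

/-!
The entropy form of the inequality for rational ratios and unions of few structured sets.
-/

set_option autoImplicit false

namespace Pool.Agent.Helper51.NQ

open Finset
open H633R5.FS (N N_nonneg N_le N_ge sum_N_mul Lz Lz_eq g Lz_le g_nonneg g_le F PS PS_nonempty)
open NP (g_mix g_affine g_dil sum_log_N)
open scoped Pointwise

/-- every ratio `ρ i` is positive and its numerator has a divisor `q ≥ 2` which is coprime to the
numerators and denominators of the earlier ratios, and whose `κ`-th power is at least the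
numerators and denominators of `ρ i` and of the earlier ratios -/
def NewParts (κ : ℕ) {r : ℕ} (ρ : Fin r → ℚ) : Prop :=
  ∀ i, 0 < ρ i ∧ ∃ q : ℕ, 2 ≤ q ∧ q ∣ (ρ i).num.natAbs ∧
    (∀ j, j < i → q.Coprime (ρ j).num.natAbs ∧ q.Coprime (ρ j).den) ∧
    ∀ j, j ≤ i → (ρ j).num.natAbs ≤ q ^ κ ∧ (ρ j).den ≤ q ^ κ

theorem NewParts.pairs {κ : ℕ} {r : ℕ} {ρ : Fin r → ℚ} (h : NewParts κ ρ) :
    NewPairs κ (fun i => (ρ i).num.natAbs) (fun i => (ρ i).den) := by
  intro i
  obtain ⟨h1, q, h2, h3, h4, h5⟩ := h i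
  refine ⟨?_, (ρ i).den_pos, q, h2, h3, ?_, h4, h5⟩
  · exact Int.natAbs_pos.2 (Rat.num_pos.2 h1).ne'
  · exact (ρ i).reduced.coprime_dvd_left h3

theorem ent_rat (κ : ℕ) (ε C : ℝ) (hε : 0 < ε) (hC : 0 ≤ C) :
    ∃ η c₀ : ℝ, 0 < η ∧ 0 ≤ c₀ ∧ ∀ (r : ℕ) (ρ : Fin r → ℚ), NewParts κ ρ →
      ∀ D : Finset (Fin r → ℕ), Down D → ∀ x : ℚ, 0 < x →
      ∀ A : Finset ℤ, A.Nonempty → (∀ a ∈ A, ∃ f ∈ D, |(a : ℚ)| = x * ∏ i, ρ i ^ f i) →
      (D.card : ℝ) ≤ (A.card : ℝ) ^ (1 + η) →
      (∀ K : ℕ, 2 ≤ K → ((sums K D).card : ℝ) ≤ (K : ℝ) ^ (C * Real.log A.card)) →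
      ∀ B : Finset ℤ, B.Nonempty →
        (1 - ε) * Real.log A.card - ε * Real.log B.card - c₀ ≤ g A B := by
  classical
  obtain ⟨η, c₀, hη, hc₀, h⟩ := ent κ ε C hε hC
  refine ⟨η, c₀, hη, hc₀, ?_⟩
  intro r ρ hρ D hD x hx A hA hAD hcard hr B hB
  set u : Fin r → ℕ := fun i => (ρ i).num.natAbs with hu
  set w : Fin r → ℕ := fun i => (ρ i).den with hw
  set E : Fin r → ℕ := fun i => D.sup fun f => f i with hE
  have hfE : ∀ f ∈ D, f ≤ E := fun f hf i => Finset.le_sup (f := fun f : Fin r → ℕ => f i) hf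
  have hρi : ∀ i, ρ i = (u i : ℚ) / w i := by
    intro i
    have h1 : 0 < (ρ i).num := Rat.num_pos.2 (hρ i).1
    have h2 : ((u i : ℕ) : ℚ) = (ρ i).num := by
      have h3 : ((u i : ℕ) : ℤ) = (ρ i).num := Int.natAbs_of_nonneg h1.le
      rw [← h3, Int.cast_natCast]
    rw [h2, hw]
    exact (Rat.num_div_den (ρ i)).symm
  have hw0 : ∀ i, ((w i : ℕ) : ℚ) ≠ 0 := fun i => by
    have := (ρ i).den_pos
    exact_mod_cast this.ne'
  set W : ℚ := ∏ i, (w i : ℚ) ^ E i with hW
  have hW0 : 0 < W := Finset.prod_pos fun i _ => by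
    have : (0 : ℚ) < w i := by exact_mod_cast (ρ i).den_pos
    positivity
  set y : ℚ := x / W with hy
  have hy0 : 0 < y := div_pos hx hW0
  set s : ℕ := y.num.natAbs with hs
  set t : ℕ := y.den with ht
  have hs0 : 0 < s := Int.natAbs_pos.2 (Rat.num_pos.2 hy0).ne'
  have ht0 : 0 < t := y.den_pos
  have hyst : y = (s : ℚ) / t := by
    have h1 : 0 < y.num := Rat.num_pos.2 hy0
    have h2 : ((s : ℕ) : ℚ) = y.num := by
      have h3 : ((s : ℕ) : ℤ) = y.num := Int.natAbs_of_nonneg h1.le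
      rw [← h3, Int.cast_natCast]
    rw [h2, ht]
    exact (Rat.num_div_den y).symm
  have hpw : ∀ f ∈ D, x * ∏ i, ρ i ^ f i = y * ((pw u w E f : ℕ) : ℚ) := by
    intro f hf
    have e1 : ((pw u w E f : ℕ) : ℚ) = W * ∏ i, ρ i ^ f i := by
      unfold pw
      push_cast
      rw [hW, ← Finset.prod_mul_distrib]
      refine Finset.prod_congr rfl fun i _ => ?_
      have h1 : E i = f i + (E i - f i) := (Nat.add_sub_cancel' (hfE f hf i)).symm
      have h2 : (w i : ℚ) ^ E i = (w i : ℚ) ^ f i * (w i : ℚ) ^ (E i - f i) := by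
        rw [← pow_add, ← h1]
      have h3 : (w i : ℚ) ^ f i ≠ 0 := pow_ne_zero _ (hw0 i)
      rw [h2, hρi i, div_pow]
      field_simp
    rw [e1, hy]
    field_simp
  have hkey : ∀ a ∈ A, ∃ f ∈ D, t * a.natAbs = s * pw u w E f := by
    intro a ha
    obtain ⟨f, hf, haf⟩ := hAD a ha
    refine ⟨f, hf, ?_⟩
    rw [hpw f hf, hyst] at haf
    have ht' : (t : ℚ) ≠ 0 := by exact_mod_cast ht0.ne'
    have h1 : (t : ℚ) * |(a : ℚ)| = s * ((pw u w E f : ℕ) : ℚ) := by
      rw [haf]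
      field_simp
    have h2 : |(a : ℚ)| = ((a.natAbs : ℕ) : ℚ) := by
      rw [Nat.cast_natAbs, Int.cast_abs]
    rw [h2] at h1
    exact_mod_cast h1
  have hsz : ((s : ℕ) : ℤ) ≠ 0 := by exact_mod_cast hs0.ne'
  have htz : ((t : ℕ) : ℤ) ≠ 0 := by exact_mod_cast ht0.ne'
  have hdvd : ∀ a ∈ A, (s : ℤ) * ((t * a) / s) = t * a := by
    intro a ha
    apply Int.mul_ediv_cancel'
    obtain ⟨f, _, hf⟩ := hkey a ha
    rw [Int.natCast_dvd, Int.natAbs_mul, Int.natAbs_natCast, hf]
    exact dvd_mul_right _ _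
  set A'' := A.image fun a => ((t : ℤ) * a) / s with hA''
  have hcA'' : A''.card = A.card := by
    apply Finset.card_image_of_injOn
    intro a ha b hb hab
    have hab' : ((t : ℤ) * a) / s = ((t : ℤ) * b) / s := hab
    have h1 := hdvd a (Finset.mem_coe.1 ha)
    have h2 := hdvd b (Finset.mem_coe.1 hb)
    rw [hab', h2] at h1
    exact (mul_left_cancel₀ htz h1).symm
  have himg : (A''.image fun a => (s : ℤ) * a) = A.image fun a => (t : ℤ) * a := by
    rw [hA'', Finset.image_image]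
    apply Finset.image_congr
    intro a ha
    exact hdvd a (Finset.mem_coe.1 ha)
  have hcB : (B.image fun b => (t : ℤ) * b + 0).card = B.card := by
    apply Finset.card_image_of_injective
    intro b b' hbb
    have : (t : ℤ) * b + 0 = (t : ℤ) * b' + 0 := hbb
    exact mul_left_cancel₀ htz (by linarith)
  have h1 : ∀ B' : Finset ℤ, B'.Nonempty →
      ((1 - ε) * Real.log A.card - c₀) - ε * Real.log B'.card ≤ g A'' B' := by
    intro B' hB'
    have h2 := h r u w E hρ.pairs D hD hfE A'' (hA.image _) (fun a' ha' => by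
      obtain ⟨a, ha, rfl⟩ := mem_image.1 ha'
      obtain ⟨f, hf, haf⟩ := hkey a ha
      refine ⟨f, hf, ?_⟩
      have h3 := congrArg Int.natAbs (hdvd a ha)
      rw [Int.natAbs_mul, Int.natAbs_mul, Int.natAbs_natCast, Int.natAbs_natCast, haf] at h3
      exact Nat.eq_of_mul_eq_mul_left hs0 h3) (by rw [hcA'']; exact hcard)
      (by rw [hcA'']; exact hr) B' hB'
    rw [hcA''] at h2
    linarith
  have h2 := g_dil A'' (B.image fun b => (t : ℤ) * b + 0) s hsz (hA.image _) (hB.image _)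
    _ ε hε.le h1
  rw [himg, g_affine A B t 0 htz, hcB] at h2
  linarith

/-- a set of integers `a` with `|a| = x ∏ ρ i ^ f i`, `f ∈ D`, for ratios with new parts and a
down-closed set `D` of at most `M` exponent vectors with at most `K ^ R` sums of `K` elements for
every `K ≥ 2` -/
def Structured (κ : ℕ) (M R : ℝ) (P : Set ℤ) : Prop :=
  ∃ (r : ℕ) (ρ : Fin r → ℚ) (D : Finset (Fin r → ℕ)) (x : ℚ), NewParts κ ρ ∧ Down D ∧ 0 < x ∧
    (D.card : ℝ) ≤ M ∧ (∀ K : ℕ, 2 ≤ K → ((sums K D).card : ℝ) ≤ (K : ℝ) ^ R) ∧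
    ∀ a ∈ P, ∃ f ∈ D, |(a : ℚ)| = x * ∏ i, ρ i ^ f i

theorem neg_rpow_log_le {η x : ℝ} (hη : 0 < η) (hx : 1 ≤ x) :
    x ^ (-η) * Real.log x ≤ 1 / η := by
  have hx0 : 0 < x := by linarith
  have h1 : η * Real.log x ≤ x ^ η := by
    rw [Real.rpow_def_of_pos hx0, mul_comm]
    have := Real.add_one_le_exp (Real.log x * η)
    linarith
  rw [Real.rpow_neg hx0.le, inv_mul_le_iff₀ (by positivity), mul_one_div, le_div_iff₀ hη]
  linarith

theorem ent_union (κ : ℕ) (ε C : ℝ) (hε : 0 < ε) (hC : 0 ≤ C) :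
    ∃ η c₀ : ℝ, 0 < η ∧ 0 ≤ c₀ ∧ ∀ A : Finset ℤ, A.Nonempty →
      ∀ (m : ℕ) (P : Fin m → Set ℤ), (m : ℝ) ≤ (A.card : ℝ) ^ η →
      (∀ j, Structured κ ((A.card : ℝ) ^ (1 + η)) (C * Real.log A.card) (P j)) →
      (∀ a ∈ A, ∃ j, a ∈ P j) → ∀ B : Finset ℤ, B.Nonempty →
        (1 - ε) * Real.log A.card - ε * Real.log B.card - c₀ ≤ g A B := by
  classical
  obtain ⟨η₀, c₀, hη₀, hc₀, h⟩ := ent_rat κ (ε / 2) (2 * C) (by positivity) (by positivity)
  obtain ⟨η, hη, hη1, hη2, hη3⟩ : ∃ η : ℝ, 0 < η ∧ 2 * η ≤ ε / 2 ∧ η ≤ 1 / 4 ∧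
      1 + η ≤ (1 + η₀) * (1 - 2 * η) := by
    refine ⟨min (ε / 4) (min (1 / 4) (η₀ / (3 + 2 * η₀))), by positivity, ?_, ?_, ?_⟩
    · linarith [min_le_left (ε / 4) (min (1 / 4) (η₀ / (3 + 2 * η₀)))]
    · exact (min_le_right _ _).trans (min_le_left _ _)
    · have h1 : min (ε / 4) (min (1 / 4) (η₀ / (3 + 2 * η₀))) ≤ η₀ / (3 + 2 * η₀) :=
        (min_le_right _ _).trans (min_le_right _ _)
      rw [le_div_iff₀ (by positivity)] at h1
      nlinarith
  refine ⟨η, c₀ + 1 / η, hη, by positivity, ?_⟩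
  intro A hA m P hm hP hAP B hB
  have cA : (0 : ℝ) < A.card := by exact_mod_cast hA.card_pos
  have cA1 : (1 : ℝ) ≤ A.card := by exact_mod_cast hA.card_pos
  set La := Real.log A.card with hLa
  set Lb := Real.log B.card with hLb
  have ha0 : 0 ≤ La := Real.log_natCast_nonneg _
  have hb0 : 0 ≤ Lb := Real.log_natCast_nonneg _
  have hjex : ∀ a : ℤ, ∃ j : Option (Fin m), a ∈ A → ∃ j', j = some j' ∧ a ∈ P j' := by
    intro a
    by_cases ha : a ∈ A
    · obtain ⟨j, hj⟩ := hAP a ha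
      exact ⟨some j, fun _ => ⟨j, rfl, hj⟩⟩
    · exact ⟨none, fun h => absurd h ha⟩
  choose J hJ using hjex
  set X := A.image J with hX
  set At : Option (Fin m) → Finset ℤ := fun j => A.filter fun a => J a = j with hAt
  have hne : ∀ j ∈ X, (At j).Nonempty := by
    intro j hj
    obtain ⟨a, ha, rfl⟩ := mem_image.1 hj
    exact ⟨a, mem_filter.2 ⟨ha, rfl⟩⟩
  have hXc : (X.card : ℝ) ≤ (A.card : ℝ) ^ η := by
    refine le_trans ?_ hm
    have h1 : X ⊆ (Finset.univ : Finset (Fin m)).image some := by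
      intro j hj
      obtain ⟨a, ha, rfl⟩ := mem_image.1 hj
      obtain ⟨j', hj', _⟩ := hJ a ha
      rw [hj']
      exact mem_image_of_mem _ (mem_univ _)
    have h2 := (Finset.card_le_card h1).trans Finset.card_image_le
    rw [Finset.card_univ, Fintype.card_fin] at h2
    exact_mod_cast h2
  have hcardA : (A.card : ℝ) = ∑ j ∈ X, ((At j).card : ℝ) := by
    rw [Finset.card_eq_sum_card_image J A]
    push_cast
    rfl
  set Z : ℝ := (1 - ε) * La - ε * Lb - c₀ with hZ
  set T : ℝ := (A.card : ℝ) ^ (1 - 2 * η) with hT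
  have hT0 : 0 < T := by positivity
  -- the large classes
  have hbig : ∀ j ∈ X, T ≤ (At j).card → Z ≤ g (At j) B := by
    intro j hj hbt
    have cAt : (0 : ℝ) < (At j).card := by exact_mod_cast (hne j hj).card_pos
    have hlog : (1 - 2 * η) * La ≤ Real.log (At j).card := by
      have h1 := Real.log_le_log hT0 hbt
      rwa [hT, Real.log_rpow cA] at h1
    obtain ⟨a₀, ha₀, hja₀⟩ := mem_image.1 hj
    obtain ⟨j', hj', _⟩ := hJ a₀ ha₀
    obtain ⟨r, ρ, D, x, h1, h2, h3, h4, h5, h6⟩ := hP j'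
    have hl0 : 0 ≤ Real.log (At j).card := Real.log_natCast_nonneg _
    have h7 := h r ρ h1 D h2 x h3 (At j) (hne j hj) (fun a ha => by
      obtain ⟨ha1, ha2⟩ := mem_filter.1 ha
      obtain ⟨j'', hj'', haP⟩ := hJ a ha1
      rw [ha2, ← hja₀, hj'] at hj''
      have : j' = j'' := Option.some_injective _ hj''
      subst this
      exact h6 a haP) (by
        refine h4.trans ?_
        calc (A.card : ℝ) ^ (1 + η) ≤ (A.card : ℝ) ^ ((1 + η₀) * (1 - 2 * η)) :=
              Real.rpow_le_rpow_of_exponent_le cA1 hη3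
          _ = T ^ (1 + η₀) := by rw [hT, ← Real.rpow_mul cA.le, mul_comm]
          _ ≤ ((At j).card : ℝ) ^ (1 + η₀) := Real.rpow_le_rpow hT0.le hbt (by positivity)) (by
        intro K hK
        refine (h5 K hK).trans (Real.rpow_le_rpow_of_exponent_le ?_ ?_)
        · exact_mod_cast (by omega : 1 ≤ K)
        · have h8 : La ≤ 2 * Real.log (At j).card := by nlinarith
          have h9 := mul_le_mul_of_nonneg_left h8 hC
          linarith) B hB
    refine le_trans ?_ h7
    have h8 : (1 - ε) * La ≤ (1 - ε / 2) * Real.log (At j).card := by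
      by_cases he : 1 - ε / 2 ≤ 0
      · have h9 : Real.log (At j).card ≤ La :=
          Real.log_le_log cAt (by exact_mod_cast Finset.card_le_card (Finset.filter_subset _ _))
        have h10 := mul_le_mul_of_nonpos_left h9 he
        have h11 : 0 ≤ ε * La := by positivity
        linarith
      · push Not at he
        have h9 := mul_le_mul_of_nonneg_left hlog he.le
        have h10 : 0 ≤ (ε / 2 - 2 * η) * La := mul_nonneg (by linarith) ha0
        have h11 : 0 ≤ ε * η * La := by positivity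
        linarith
    have h9 : ε / 2 * Lb ≤ ε * Lb := mul_le_mul_of_nonneg_right (by linarith) hb0
    rw [hZ]
    linarith
  -- the mean over the classes
  have hmix := g_mix A B J hA hB
  have hmix' : ∑ j ∈ X, ((At j).card : ℝ) * g (At j) B ≤ A.card * g A B := hmix
  have hZle : Z ≤ La := by
    rw [hZ]
    have h1 : 0 ≤ ε * La := by positivity
    have h2 : 0 ≤ ε * Lb := by positivity
    linarith
  have hlb : ∀ j ∈ X, ((At j).card : ℝ) * Z - T * La ≤ ((At j).card : ℝ) * g (At j) B := by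
    intro j hj
    have cAt : (0 : ℝ) < (At j).card := by exact_mod_cast (hne j hj).card_pos
    by_cases hbt : T ≤ (At j).card
    · have h1 := mul_le_mul_of_nonneg_left (hbig j hj hbt) cAt.le
      have h2 : 0 ≤ T * La := by positivity
      linarith
    · push Not at hbt
      have h1 : 0 ≤ ((At j).card : ℝ) * g (At j) B :=
        mul_nonneg cAt.le (g_nonneg _ _ (hne j hj) hB)
      have h2 : ((At j).card : ℝ) * Z ≤ T * La := by
        calc ((At j).card : ℝ) * Z ≤ (At j).card * La := mul_le_mul_of_nonneg_left hZle cAt.le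
          _ ≤ T * La := mul_le_mul_of_nonneg_right hbt.le ha0
      linarith
  have hsum := (Finset.sum_le_sum hlb).trans hmix'
  rw [Finset.sum_sub_distrib, Finset.sum_const, nsmul_eq_mul, ← Finset.sum_mul, ← hcardA] at hsum
  have hsmall : (X.card : ℝ) * (T * La) ≤ A.card * (1 / η) := by
    calc (X.card : ℝ) * (T * La) ≤ (A.card : ℝ) ^ η * (T * La) :=
          mul_le_mul_of_nonneg_right hXc (by positivity)
      _ = A.card * ((A.card : ℝ) ^ (-η) * La) := by
          have h1 : (A.card : ℝ) ^ η * T = A.card * (A.card : ℝ) ^ (-η) := by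
            rw [hT, ← Real.rpow_add cA]
            nth_rewrite 2 [← Real.rpow_one (A.card : ℝ)]
            rw [← Real.rpow_add cA]
            congr 1
            ring
          rw [← mul_assoc, h1, mul_assoc]
      _ ≤ A.card * (1 / η) := mul_le_mul_of_nonneg_left (neg_rpow_log_le hη cA1) cA.le
  have hfin : (A.card : ℝ) * (Z - 1 / η) ≤ A.card * g A B := by
    rw [mul_sub]
    linarith
  have := le_of_mul_le_mul_left hfin cA
  linarith

end Pool.Agent.Helper51.NQ
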