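import Mathlib

/-!
Sequences of pairs `(u b, w b)` of positive integers such that `u b` has a divisor coprime to `w b`
and to the earlier pairs, and the integers which are products of powers of the pairs.
-/

set_option autoImplicit false

namespace Pool.Agent.Helper51.NQ

open Finset

/-- a finite set `Q` of positive indices, pairs `(u b, w b)` of positive integers, `b ∈ Q`, a
divisor `q b ≥ 2` of every `u b` which is coprime to `w b` and to the earlier `u b'`, `w b'`,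
`b' < b`, and exponents `E b` -/
class Sys where
  Q : Finset ℕ
  u : ℕ → ℕ
  w : ℕ → ℕ
  q : ℕ → ℕ
  E : ℕ → ℕ
  ipos : ∀ b ∈ Q, 0 < b
  upos : ∀ b ∈ Q, 0 < u b
  wpos : ∀ b ∈ Q, 0 < w b
  two : ∀ b ∈ Q, 2 ≤ q b
  dvd : ∀ b ∈ Q, q b ∣ u b
  cow : ∀ b ∈ Q, Nat.Coprime (q b) (w b)
  cop : ∀ b ∈ Q, ∀ b' ∈ Q, b' < b → Nat.Coprime (q b) (u b') ∧ Nat.Coprime (q b) (w b')

/-- the indices of the generators -/
abbrev Gn [Sys] : Finset ℕ := Sys.Q

/-- the upper generators -/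
abbrev ub [Sys] (b : ℕ) : ℕ := Sys.u b

/-- the lower generators -/
abbrev wb [Sys] (b : ℕ) : ℕ := Sys.w b

/-- the total exponents -/
abbrev Eb [Sys] (b : ℕ) : ℕ := Sys.E b

/-- the new part of a generator -/
abbrev nq [Sys] (b : ℕ) : ℕ := Sys.q b

variable [Sys]

/-- one factor -/
def fa (b n : ℕ) : ℕ := ub b ^ n * wb b ^ (Eb b - n)

theorem fa_pos {b : ℕ} (hb : b ∈ Gn) (n : ℕ) : 0 < fa b n :=
  Nat.mul_pos (pow_pos (Sys.upos b hb) _) (pow_pos (Sys.wpos b hb) _)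

/-- the product with given exponents -/
def pr (e : ℕ → ℕ) : ℕ := ∏ b ∈ Gn, fa b (e b)

/-- the part of the product from the generators below `b` -/
def lw (b : ℕ) (e : ℕ → ℕ) : ℕ := ∏ b' ∈ Gn.filter (fun b' => ¬ b ≤ b'), fa b' (e b')

/-- the part of the product from the generators above `b` -/
def gt (b : ℕ) (e : ℕ → ℕ) : ℕ := ∏ b' ∈ Gn.filter (fun b' => b < b'), fa b' (e b')

theorem pr_pos (e : ℕ → ℕ) : 0 < pr e := prod_pos fun b hb => fa_pos hb _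

theorem lw_pos (b : ℕ) (e : ℕ → ℕ) : 0 < lw b e :=
  prod_pos fun b' hb => fa_pos (mem_filter.1 hb).1 _

theorem gt_pos (b : ℕ) (e : ℕ → ℕ) : 0 < gt b e :=
  prod_pos fun b' hb => fa_pos (mem_filter.1 hb).1 _

theorem pr_split {b : ℕ} (hb : b ∈ Gn) (e : ℕ → ℕ) : pr e = fa b (e b) * gt b e * lw b e := by
  unfold pr lw gt
  rw [← prod_filter_mul_prod_filter_not Gn (fun b' => b ≤ b')]
  congr 1
  have h1 : Gn.filter (fun b' => b ≤ b') = insert b (Gn.filter fun b' => b < b') := by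
    ext x
    rw [mem_filter, mem_insert, mem_filter]
    constructor
    · rintro ⟨h1, h2⟩
      rcases h2.eq_or_lt with h3 | h3
      · exact Or.inl h3.symm
      · exact Or.inr ⟨h1, h3⟩
    · rintro (rfl | ⟨h1, h2⟩)
      · exact ⟨hb, le_refl _⟩
      · exact ⟨h1, h2.le⟩
  rw [h1, prod_insert]
  rw [mem_filter]
  exact fun h => lt_irrefl _ h.2

theorem cop_lw {b : ℕ} (hb : b ∈ Gn) (e : ℕ → ℕ) : Nat.Coprime (nq b) (lw b e) := by
  unfold lw
  apply Nat.Coprime.prod_right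
  intro b' hb'
  obtain ⟨h1, h2⟩ := mem_filter.1 hb'
  obtain ⟨h3, h4⟩ := Sys.cop b hb b' h1 (by omega)
  exact Nat.Coprime.mul_right (Nat.Coprime.pow_right _ h3) (Nat.Coprime.pow_right _ h4)

theorem nq_pow_dvd {b : ℕ} (hb : b ∈ Gn) {n : ℕ} (hn : n ≠ 0) : nq b ∣ ub b ^ n :=
  (Sys.dvd b hb).trans (dvd_pow_self (ub b) hn)

theorem uniq_aux {b : ℕ} (hb : b ∈ Gn) {e e' : ℕ → ℕ} (he' : e' b ≤ Eb b) (h : pr e = pr e')
    (hgt : ∀ b' ∈ Gn, b < b' → e b' = e' b') : ¬ e b < e' b := by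
  intro hlt
  rw [pr_split hb, pr_split hb] at h
  have h1 : gt b e = gt b e' := by
    unfold gt
    refine prod_congr rfl fun b' hb' => ?_
    obtain ⟨h1, h2⟩ := mem_filter.1 hb'
    rw [hgt b' h1 h2]
  obtain ⟨d, hd⟩ := Nat.exists_eq_add_of_lt hlt
  have h2 : e' b = e b + (d + 1) := by omega
  have h2' : Eb b - e b = (Eb b - e' b) + (d + 1) := by omega
  unfold fa at h
  rw [h1, h2'] at h
  rw [h2] at h
  rw [pow_add (ub b) (e b) (d + 1), pow_add (wb b) _ (d + 1)] at h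
  have h3 : ub b ^ e b * wb b ^ (Eb b - (e b + (d + 1))) * gt b e' * (wb b ^ (d + 1) * lw b e) =
      ub b ^ e b * wb b ^ (Eb b - (e b + (d + 1))) * gt b e' * (ub b ^ (d + 1) * lw b e') := by
    calc _ = ub b ^ e b * (wb b ^ (Eb b - (e b + (d + 1))) * wb b ^ (d + 1)) * gt b e' *
          lw b e := by ring
      _ = _ := by rw [h]; ring
  have h4 : 0 < ub b ^ e b * wb b ^ (Eb b - (e b + (d + 1))) * gt b e' :=
    Nat.mul_pos (Nat.mul_pos (pow_pos (Sys.upos b hb) _) (pow_pos (Sys.wpos b hb) _)) (gt_pos _ _)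
  have h5 := Nat.eq_of_mul_eq_mul_left h4 h3
  have h6 : nq b ∣ wb b ^ (d + 1) * lw b e := by
    rw [h5]
    exact (nq_pow_dvd hb (Nat.succ_ne_zero d)).mul_right _
  have h7 : Nat.Coprime (nq b) (wb b ^ (d + 1) * lw b e) :=
    Nat.Coprime.mul_right (Nat.Coprime.pow_right _ (Sys.cow b hb)) (cop_lw hb e)
  have h8 := Nat.Coprime.eq_one_of_dvd h7 h6
  have h9 := Sys.two b hb
  have h10 : Sys.q b = 1 := h8
  omega

/-- uniqueness of the exponents -/
theorem uniq {e e' : ℕ → ℕ} (he : ∀ b ∈ Gn, e b ≤ Eb b) (he' : ∀ b ∈ Gn, e' b ≤ Eb b)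
    (h : pr e = pr e') : ∀ b ∈ Gn, e b = e' b := by
  classical
  by_contra hcon
  push Not at hcon
  obtain ⟨b₀, hb₀, hne⟩ := hcon
  set S := Gn.filter (fun b => e b ≠ e' b) with hS
  have hSne : S.Nonempty := ⟨b₀, mem_filter.2 ⟨hb₀, hne⟩⟩
  obtain ⟨b, hbS, hmax⟩ := S.exists_max_image id hSne
  obtain ⟨hb, hbe⟩ := mem_filter.1 hbS
  have hgt : ∀ b' ∈ Gn, b < b' → e b' = e' b' := by
    intro b' hb' hlt
    by_contra hne'
    have := hmax b' (mem_filter.2 ⟨hb', hne'⟩)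
    simp only [id] at this
    omega
  rcases Nat.lt_or_ge (e b) (e' b) with h1 | h1
  · exact uniq_aux hb (he' b hb) h hgt h1
  · refine uniq_aux hb (he b hb) h.symm (fun b' hb' hlt => (hgt b' hb' hlt).symm) ?_
    exact lt_of_le_of_ne h1 fun h2 => hbe h2.symm

/-- the absolute value of `c` is a product of generators -/
def Mem (c : ℤ) : Prop := ∃ e : ℕ → ℕ, (∀ b ∈ Gn, e b ≤ Eb b) ∧ c.natAbs = pr e

theorem Mem.ne_zero {c : ℤ} (h : Mem c) : c ≠ 0 := by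
  obtain ⟨e, _, he⟩ := h
  intro h0
  have := pr_pos e
  rw [← he, h0] at this
  simp at this

open Classical in
/-- the exponent of the generator `b` in `c` -/
noncomputable def vl (b : ℕ) (c : ℤ) : ℕ := if h : Mem c ∧ b ∈ Gn then h.1.choose b else 0

theorem vl_not_mem {b : ℕ} (hb : b ∉ Gn) (c : ℤ) : vl b c = 0 := by
  unfold vl
  rw [dif_neg]
  exact fun h => hb h.2

theorem vl_eq {c : ℤ} {e : ℕ → ℕ} (he : ∀ b ∈ Gn, e b ≤ Eb b) (h : c.natAbs = pr e) {b : ℕ}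
    (hb : b ∈ Gn) : vl b c = e b := by
  have hM : Mem c := ⟨e, he, h⟩
  unfold vl
  rw [dif_pos ⟨hM, hb⟩]
  exact uniq hM.choose_spec.1 he (hM.choose_spec.2.symm.trans h) b hb

theorem Mem.le {c : ℤ} (h : Mem c) : ∀ b ∈ Gn, vl b c ≤ Eb b := by
  intro b hb
  obtain ⟨e, he, hc⟩ := h
  rw [vl_eq he hc hb]
  exact he b hb

theorem Mem.spec {c : ℤ} (h : Mem c) : c.natAbs = pr fun b => vl b c := by
  obtain ⟨e, he', he⟩ := h
  rw [he]
  unfold pr
  refine prod_congr rfl fun b hb => ?_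
  show fa b (e b) = fa b (vl b c)
  rw [vl_eq he' he hb]

theorem natAbs_eq_of_vl {a b : ℤ} (ha : Mem a) (hb : Mem b)
    (h : ∀ p ∈ Gn, vl p a = vl p b) : a.natAbs = b.natAbs := by
  rw [ha.spec, hb.spec]
  unfold pr
  refine prod_congr rfl fun p hp => ?_
  show fa p (vl p a) = fa p (vl p b)
  rw [h p hp]

theorem Mem.pr {e : ℕ → ℕ} (he : ∀ b ∈ Gn, e b ≤ Eb b) : Mem ((NQ.pr e : ℕ) : ℤ) :=
  ⟨e, he, Int.natAbs_natCast _⟩

end Pool.Agent.Helper51.NQ
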