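import Pool.Agent.Helper51.NQ.Sys
import Pool.Agent.Helper51.NP.Cls
import Pool.Agent.H633R5.FS.Main

/-!
The decomposition tree of a finite set of products of generators along the generators in
decreasing order.
-/

set_option autoImplicit false

namespace Pool.Agent.Helper51.NQ

open Finset
open H633R5.FS (N N_nonneg N_le N_ge sum_N_mul Lz Lz_eq g Lz_le g_nonneg g_le Lz_classes card_classes
  exists_class N_split Lz_split Psi Psi_zero_left Psi_zero_right Psi_nonneg Psi_eq Psi_smul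
  Psi_tangent Psi_sum Psi_fiber Psi_le_log_two Psi_one Psi_le chan_ge_sq chan_ge_log Psi_le_sqrt
  Psi_comm F F_le)
open NP (Inf Dist Hw Hw_nonneg Hw_ge Inf_nonneg dw dw_nonneg dw_sum card_mul_dw ps stepE near middle)
open scoped Classical

variable [Sys]

/-- the elements of `C` with a larger exponent of `p` than the others -/
noncomputable def hi (p t : ℕ) (C : Finset ℤ) : Finset ℤ := C.filter fun c => vl p c ≠ t

/-- the elements of `C` with the least exponent `t` of `p` -/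
noncomputable def lo (p t : ℕ) (C : Finset ℤ) : Finset ℤ := C.filter fun c => ¬ vl p c ≠ t

theorem hi_subset (p t : ℕ) (C : Finset ℤ) : hi p t C ⊆ C := Finset.filter_subset _ _

theorem lo_subset (p t : ℕ) (C : Finset ℤ) : lo p t C ⊆ C := Finset.filter_subset _ _

theorem mem_hi {p t : ℕ} {C : Finset ℤ} {c : ℤ} :
    c ∈ hi p t C ↔ c ∈ C ∧ vl p c ≠ t := Finset.mem_filter

theorem mem_lo {p t : ℕ} {C : Finset ℤ} {c : ℤ} :
    c ∈ lo p t C ↔ c ∈ C ∧ vl p c = t := by
  unfold lo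
  rw [Finset.mem_filter, not_not]

theorem card_hi_lo (p t : ℕ) (C : Finset ℤ) : (hi p t C).card + (lo p t C).card = C.card :=
  Finset.card_filter_add_card_filter_not (s := C) _

/-- the generators whose exponent is not constant on `C` -/
noncomputable def ncp (C : Finset ℤ) : Finset ℕ :=
  Gn.filter fun p => ∃ c ∈ C, ∃ c' ∈ C, vl p c ≠ vl p c'

/-- the largest generator whose exponent is not constant on `C` -/
noncomputable def mp (C : Finset ℤ) : ℕ := (ncp C).sup id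

/-- the least exponent -/
noncomputable def mt (C : Finset ℤ) : ℕ := sInf {n | ∃ c ∈ C, vl (mp C) c = n}

/-- the elements more divisible by `mp C` -/
noncomputable def hC (C : Finset ℤ) : Finset ℤ := hi (mp C) (mt C) C

/-- the elements least divisible by `mp C` -/
noncomputable def lC (C : Finset ℤ) : Finset ℤ := lo (mp C) (mt C) C

theorem mem_ncp {C : Finset ℤ} (_h0 : ∀ c ∈ C, Mem c) {p : ℕ} :
    p ∈ ncp C ↔ p ∈ Gn ∧ ∃ c ∈ C, ∃ c' ∈ C, vl p c ≠ vl p c' := Finset.mem_filter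

theorem ncp_mono {C D : Finset ℤ} (h : C ⊆ D) : ncp C ⊆ ncp D := by
  intro p hp
  obtain ⟨hcp, a, ha, b, hb, hab⟩ := Finset.mem_filter.1 hp
  exact Finset.mem_filter.2 ⟨hcp, a, h ha, b, h hb, hab⟩

theorem mp_mono {C D : Finset ℤ} (h : C ⊆ D) : mp C ≤ mp D := Finset.sup_mono (ncp_mono h)

theorem mp_mem {C : Finset ℤ} (h : (ncp C).Nonempty) : mp C ∈ ncp C := by
  unfold mp
  obtain ⟨p, hp, hpe⟩ := Finset.exists_mem_eq_sup (ncp C) h id
  rw [hpe]
  exact hp

theorem le_mp {C : Finset ℤ} {p : ℕ} (h : p ∈ ncp C) : p ≤ mp C :=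
  Finset.le_sup (f := id) h

theorem mt_le {C : Finset ℤ} {c : ℤ} (hc : c ∈ C) : mt C ≤ vl (mp C) c :=
  Nat.sInf_le ⟨c, hc, rfl⟩

theorem mt_mem {C : Finset ℤ} (h : C.Nonempty) : ∃ c ∈ C, vl (mp C) c = mt C := by
  obtain ⟨c, hc⟩ := h
  exact Nat.sInf_mem (s := {n | ∃ c ∈ C, vl (mp C) c = n}) ⟨_, c, hc, rfl⟩

theorem mem_hC {C : Finset ℤ} {c : ℤ} : c ∈ hC C ↔ c ∈ C ∧ vl (mp C) c ≠ mt C := mem_hi

theorem mem_lC {C : Finset ℤ} {c : ℤ} : c ∈ lC C ↔ c ∈ C ∧ vl (mp C) c = mt C := mem_lo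

theorem hC_subset (C : Finset ℤ) : hC C ⊆ C := hi_subset _ _ _

theorem lC_subset (C : Finset ℤ) : lC C ⊆ C := lo_subset _ _ _

theorem card_hC_lC (C : Finset ℤ) : (hC C).card + (lC C).card = C.card := card_hi_lo _ _ _

theorem lC_nonempty {C : Finset ℤ} (h : C.Nonempty) : (lC C).Nonempty := by
  obtain ⟨c, hc, hct⟩ := mt_mem h
  exact ⟨c, mem_lC.2 ⟨hc, hct⟩⟩

theorem hC_nonempty {C : Finset ℤ} (h : (ncp C).Nonempty) : (hC C).Nonempty := by
  have h1 := mp_mem h
  have h2 := (Finset.mem_filter.1 h1).2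
  obtain ⟨c, hc, c', hc', hne⟩ := h2
  by_cases h3 : vl (mp C) c = mt C
  · exact ⟨c', mem_hC.2 ⟨hc', fun h4 => hne (h3.trans h4.symm)⟩⟩
  · exact ⟨c, mem_hC.2 ⟨hc, h3⟩⟩

theorem nonempty_of_ncp {C : Finset ℤ} (h : (ncp C).Nonempty) : C.Nonempty :=
  (hC_nonempty h).mono (hC_subset C)

theorem hC_lt {C : Finset ℤ} (h : (ncp C).Nonempty) : (hC C).card < C.card := by
  have h1 := card_hC_lC C
  have h2 := (lC_nonempty (nonempty_of_ncp h)).card_pos
  omega

theorem lC_lt {C : Finset ℤ} (h : (ncp C).Nonempty) : (lC C).card < C.card := by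
  have h1 := card_hC_lC C
  have h2 := (hC_nonempty h).card_pos
  omega

theorem disj_hC_lC (C : Finset ℤ) : Disjoint (hC C) (lC C) := by
  rw [Finset.disjoint_left]
  intro c h1 h2
  exact (mem_hC.1 h1).2 (mem_lC.1 h2).2

theorem hC_union_lC (C : Finset ℤ) : hC C ∪ lC C = C := by
  ext c
  rw [Finset.mem_union, mem_hC, mem_lC]
  tauto

theorem sum_hC_lC {M : Type*} [AddCommMonoid M] (C : Finset ℤ) (f : ℤ → M) :
    ∑ c ∈ C, f c = ∑ c ∈ hC C, f c + ∑ c ∈ lC C, f c := by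
  rw [← Finset.sum_union (disj_hC_lC C), hC_union_lC]

/-- induction along the tree -/
theorem tree_ind (P : Finset ℤ → Prop)
    (h0 : ∀ C : Finset ℤ, C.Nonempty → (∀ c ∈ C, Mem c) → ¬ (ncp C).Nonempty → P C)
    (h1 : ∀ C : Finset ℤ, (∀ c ∈ C, Mem c) → (ncp C).Nonempty → P (hC C) → P (lC C) → P C) :
    ∀ C : Finset ℤ, C.Nonempty → (∀ c ∈ C, Mem c) → P C := by
  have key : ∀ n : ℕ, ∀ C : Finset ℤ, C.card = n → C.Nonempty → (∀ c ∈ C, Mem c) → P C := by
    intro n
    induction n using Nat.strong_induction_on with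
    | _ n ih =>
    intro C hn hC' hz
    by_cases h : (ncp C).Nonempty
    · refine h1 C hz h ?_ ?_
      · exact ih _ (by rw [← hn]; exact hC_lt h) _ rfl (hC_nonempty h)
          fun c hc => hz c (hC_subset C hc)
      · exact ih _ (by rw [← hn]; exact lC_lt h) _ rfl (lC_nonempty hC')
          fun c hc => hz c (lC_subset C hc)
    · exact h0 C hC' hz h
  intro C
  exact key _ C rfl

/-- the part of `c` from the generators `≥ b`, without the lower generator of `b` -/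
noncomputable def up (b : ℕ) (c : ℤ) : ℕ := ub b ^ vl b c * gt b fun b' => vl b' c

/-- the common part of the low elements -/
noncomputable def md (C : Finset ℤ) : ℕ := (lC C).sup fun c => up (mp C) c

theorem gt_const {C : Finset ℤ} {p : ℕ} (hp : mp C ≤ p) {c c' : ℤ} (hc : c ∈ C) (hc' : c' ∈ C) :
    (gt p fun b' => vl b' c) = gt p fun b' => vl b' c' := by
  unfold gt
  refine Finset.prod_congr rfl fun b hb => ?_
  obtain ⟨h1, h2⟩ := Finset.mem_filter.1 hb
  have h3 : vl b c = vl b c' := by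
    by_contra hne
    have h4 : b ∈ ncp C := Finset.mem_filter.2 ⟨h1, c, hc, c', hc', hne⟩
    have := le_mp h4
    omega
  show fa b (vl b c) = fa b (vl b c')
  rw [h3]

theorem gt_eq {C : Finset ℤ} {c c' : ℤ} (hc : c ∈ C) (hc' : c' ∈ C) :
    (gt (mp C) fun b' => vl b' c) = gt (mp C) fun b' => vl b' c' := gt_const le_rfl hc hc'

theorem up_eq {C : Finset ℤ} {c c' : ℤ} (hc : c ∈ lC C) (hc' : c' ∈ lC C) :
    up (mp C) c = up (mp C) c' := by
  unfold up
  rw [(mem_lC.1 hc).2, (mem_lC.1 hc').2, gt_eq (mem_lC.1 hc).1 (mem_lC.1 hc').1]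

theorem md_eq {C : Finset ℤ} {c : ℤ} (hc : c ∈ lC C) : md C = up (mp C) c := by
  unfold md
  apply le_antisymm
  · apply Finset.sup_le
    intro c' hc'
    rw [up_eq hc hc']
  · exact Finset.le_sup (f := fun c => up (mp C) c) hc

theorem md_eq' {C : Finset ℤ} (hC' : C.Nonempty) {c : ℤ} (hc : c ∈ C) :
    md C = ub (mp C) ^ mt C * gt (mp C) fun b' => vl b' c := by
  obtain ⟨c₀, hc₀⟩ := lC_nonempty hC'
  rw [md_eq hc₀]
  unfold up
  rw [(mem_lC.1 hc₀).2, gt_eq (mem_lC.1 hc₀).1 hc]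

theorem md_pos {C : Finset ℤ} (hC' : C.Nonempty) (h : mp C ∈ Gn) : 0 < md C := by
  obtain ⟨c, hc⟩ := hC'
  rw [md_eq' ⟨c, hc⟩ hc]
  exact Nat.mul_pos (pow_pos (Sys.upos _ h) _) (gt_pos _ _)

/-- the factorisation of an element with at least `t` factors `ub p` -/
theorem fac_at {p t : ℕ} (h : p ∈ Gn) {c : ℤ} (hM : Mem c) (ht : t ≤ vl p c) :
    c.natAbs = (ub p ^ t * gt p fun b' => vl b' c) *
      (ub p ^ (vl p c - t) * (wb p ^ (Eb p - vl p c) * lw p fun b => vl b c)) := by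
  have h1 := hM.spec
  rw [pr_split h] at h1
  have h2 : ub p ^ vl p c = ub p ^ t * ub p ^ (vl p c - t) := by
    rw [← pow_add, Nat.add_sub_cancel' ht]
  unfold fa at h1
  rw [h1, h2]
  ring

/-- the factorisation of the elements of a cell -/
theorem cell_fac {C : Finset ℤ} (h : mp C ∈ Gn) {c : ℤ} (hc : c ∈ C) (hM : Mem c) :
    c.natAbs = md C * (ub (mp C) ^ (vl (mp C) c - mt C) *
      (wb (mp C) ^ (Eb (mp C) - vl (mp C) c) * lw (mp C) fun b => vl b c)) := by
  rw [md_eq' ⟨c, hc⟩ hc]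
  exact fac_at h hM (mt_le hc)

/-- the class of `c` modulo the new part of `mp C` after division by the common part -/
noncomputable def pz (C : Finset ℤ) (c : ℤ) : ZMod (nq (mp C)) := ps (nq (mp C)) (md C) c

omit [Sys] in
theorem ps_eq_zero_iff {q D m : ℕ} (hD : 0 < D) {c : ℤ} (h : c.natAbs = D * m) :
    ps q D c = 0 ↔ q ∣ m := by
  have hD' : (D : ℤ) ≠ 0 := by exact_mod_cast hD.ne'
  unfold ps
  rw [ZMod.intCast_zmod_eq_zero_iff_dvd]
  rcases Int.natAbs_eq c with h1 | h1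
  · rw [h1, h]
    push_cast
    rw [Int.mul_ediv_cancel_left _ hD']
    exact Int.natCast_dvd_natCast
  · rw [h1, h]
    have : (-((D * m : ℕ) : ℤ)) = (D : ℤ) * (-(m : ℤ)) := by push_cast; ring
    rw [this, Int.mul_ediv_cancel_left _ hD', dvd_neg]
    exact Int.natCast_dvd_natCast

theorem md_dvd {C : Finset ℤ} (h : mp C ∈ Gn) {c : ℤ} (hc : c ∈ C) (hM : Mem c) :
    (md C : ℤ) ∣ c :=
  Int.natCast_dvd.2 ⟨_, cell_fac h hc hM⟩

theorem cop_wlw {b : ℕ} (hb : b ∈ Gn) (n : ℕ) (e : ℕ → ℕ) :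
    Nat.Coprime (nq b) (wb b ^ n * lw b e) :=
  Nat.Coprime.mul_right (Nat.Coprime.pow_right _ (Sys.cow b hb)) (cop_lw hb e)

theorem pz_hi {C : Finset ℤ} (h : mp C ∈ Gn) {c : ℤ} (hc : c ∈ hC C) (hM : Mem c) :
    pz C c = 0 := by
  obtain ⟨h1, h2⟩ := mem_hC.1 hc
  unfold pz
  rw [ps_eq_zero_iff (md_pos ⟨c, h1⟩ h) (cell_fac h h1 hM)]
  have h3 := mt_le h1
  exact (nq_pow_dvd h (by omega)).mul_right _

theorem pz_lo {C : Finset ℤ} (h : mp C ∈ Gn) {c : ℤ} (hc : c ∈ lC C) (hM : Mem c) :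
    pz C c ≠ 0 := by
  obtain ⟨h1, h2⟩ := mem_lC.1 hc
  unfold pz
  rw [Ne, ps_eq_zero_iff (md_pos ⟨c, h1⟩ h) (cell_fac h h1 hM), h2, Nat.sub_self, pow_zero, one_mul]
  intro h3
  have h4 := Nat.Coprime.eq_one_of_dvd (cop_wlw h _ _) h3
  have h5 := Sys.two _ h
  have h6 : Sys.q (mp C) = 1 := h4
  omega

/-- the parameters -/
structure Par where
  x : ℝ
  y : ℝ
  t : ℝ
  b : ℝ

/-- `c` lies in a heavy class of the low part -/
def Hv (P : Par) (C : Finset ℤ) (c : ℤ) : Prop :=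
  P.t * (lC C).card ≤
    ((lC C).filter fun c' => pz C c' = pz C c).card

/-- balanced cells with heavy classes -/
def Bd (P : Par) (C : Finset ℤ) : Prop :=
  P.x * C.card ≤ (hC C).card ∧ ((hC C).card : ℝ) ≤ (1 - P.y) * C.card ∧
    P.b * (lC C).card ≤ ((lC C).filter fun c => Hv P C c).card

/-- the child containing `c` -/
noncomputable def nx (C : Finset ℤ) (c : ℤ) : Finset ℤ :=
  if vl (mp C) c ≠ mt C then hC C else lC C

theorem nx_hi {C : Finset ℤ} {c : ℤ} (hc : c ∈ hC C) : nx C c = hC C :=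
  if_pos (mem_hC.1 hc).2

theorem nx_lo {C : Finset ℤ} {c : ℤ} (hc : c ∈ lC C) : nx C c = lC C :=
  if_neg (not_not.2 (mem_lC.1 hc).2)

/-- the bad cells on the path of `c` -/
noncomputable def bl (P : Par) (C : Finset ℤ) (c : ℤ) : List (Finset ℤ) :=
  if _h : (nx C c).card < C.card then
    (if Bd P C then [C] else []) ++ bl P (nx C c) c else []
termination_by C.card

theorem bl_hi (P : Par) {C : Finset ℤ} (h : (ncp C).Nonempty) {c : ℤ} (hc : c ∈ hC C) :
    bl P C c = (if Bd P C then [C] else []) ++ bl P (hC C) c := by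
  rw [bl, nx_hi hc, dif_pos (hC_lt h)]

theorem bl_lo (P : Par) {C : Finset ℤ} (h : (ncp C).Nonempty) {c : ℤ} (hc : c ∈ lC C) :
    bl P C c = (if Bd P C then [C] else []) ++ bl P (lC C) c := by
  rw [bl, nx_lo hc, dif_pos (lC_lt h)]

theorem bl_nx (P : Par) {C : Finset ℤ} (h : (ncp C).Nonempty) (c : ℤ) :
    bl P C c = (if Bd P C then [C] else []) ++ bl P (nx C c) c := by
  rw [bl, dif_pos]
  unfold nx
  split_ifs
  · exact hC_lt h
  · exact lC_lt h

theorem bl_nil (P : Par) {C : Finset ℤ} (h : ¬ (ncp C).Nonempty) (h0 : ∀ c ∈ C, Mem c) {c : ℤ}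
    (hc : c ∈ C) : bl P C c = [] := by
  have h1 : nx C c = C := by
    have hC0 : hC C = ∅ := by
      by_contra hne
      obtain ⟨d, hd⟩ := Finset.nonempty_iff_ne_empty.2 hne
      obtain ⟨hdC, hdt⟩ := mem_hC.1 hd
      obtain ⟨d', hd', hdt'⟩ := mt_mem ⟨c, hc⟩
      by_cases hp : mp C ∈ Gn
      · exact h ⟨mp C, (mem_ncp h0).2 ⟨hp, d, hdC, d', hd', fun h2 => hdt (h2.trans hdt')⟩⟩
      · have hz : ∀ a : ℤ, vl (mp C) a = 0 := fun a => vl_not_mem hp a
        rw [hz] at hdt hdt'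
        exact hdt hdt'
    have hl : lC C = C := by
      have := hC_union_lC C
      rw [hC0, Finset.empty_union] at this
      exact this
    unfold nx
    split_ifs with h2
    · exfalso
      have : c ∈ hC C := mem_hC.2 ⟨hc, h2⟩
      rw [hC0] at this
      exact absurd this (Finset.notMem_empty c)
    · exact hl
  rw [bl, h1, dif_neg (lt_irrefl _)]

/-- the number of bad cells, summed over the elements of `C` -/
noncomputable def nbs (P : Par) (C : Finset ℤ) : ℝ := ∑ c ∈ C, ((bl P C c).length : ℝ)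

theorem nbs_nonneg (P : Par) (C : Finset ℤ) : 0 ≤ nbs P C :=
  Finset.sum_nonneg fun c _ => by positivity

theorem nbs_nil (P : Par) {C : Finset ℤ} (h : ¬ (ncp C).Nonempty) (h0 : ∀ c ∈ C, Mem c) :
    nbs P C = 0 := by
  unfold nbs
  apply Finset.sum_eq_zero
  intro c hc
  rw [bl_nil P h h0 hc]
  simp

theorem nbs_eq (P : Par) {C : Finset ℤ} (h : (ncp C).Nonempty) :
    nbs P C = (if Bd P C then (C.card : ℝ) else 0) + nbs P (hC C) + nbs P (lC C) := by
  have h1 : ∀ D : Finset ℤ, (∀ c ∈ D, bl P C c = (if Bd P C then [C] else []) ++ bl P D c) →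
      ∑ c ∈ D, ((bl P C c).length : ℝ) = (if Bd P C then (D.card : ℝ) else 0) + nbs P D := by
    intro D hD
    have h2 : ∀ c ∈ D, ((bl P C c).length : ℝ) = (if Bd P C then 1 else 0) +
        ((bl P D c).length : ℝ) := by
      intro c hc
      rw [hD c hc, List.length_append]
      split_ifs <;> simp
    rw [Finset.sum_congr rfl h2, Finset.sum_add_distrib, Finset.sum_const, nsmul_eq_mul]
    unfold nbs
    split_ifs <;> ring
  have h2 : ((hC C).card : ℝ) + (lC C).card = C.card := by exact_mod_cast card_hC_lC C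
  unfold nbs
  rw [sum_hC_lC C, h1 (hC C) fun c hc => bl_hi P h hc, h1 (lC C) fun c hc => bl_lo P h hc]
  unfold nbs
  split_ifs <;> linarith

end Pool.Agent.Helper51.NQ
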